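import Pool.Agent.U746.ST.Low

set_option autoImplicit false

/-! # The asymptotic argument -/

open Finset Filter

namespace Pool.Agent.U746.ST

open Pool.Agent.H820R3.DG (rr log_small)

theorem win (d : ℕ) (f : ℕ → ℕ) (hf : f 0 = 1) (κ : ℝ)
    (hlow : ∀ δ : ℝ, 0 < δ → ∃ C : ℝ, 0 ≤ C ∧ ∀ n : ℕ, κ * n - δ * n -
      C * (1 + Real.log ((n : ℝ) + 1)) * ((∑ i ∈ range (n + 1), f i : ℕ) : ℝ) ^ (d + 1) ≤
        ((∑ m ∈ range (n + 1), rr f (d + 2) m : ℕ) : ℝ)) (ε : ℝ) (hε : 0 < ε) :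
    ∃ δ : ℝ, 0 < δ ∧ ∀ᶠ N : ℕ in atTop, ∃ n : ℕ, δ * N ≤ n ∧ n ≤ N ∧
      (κ / Real.Gamma (1 + 1 / ((d : ℝ) + 2)) ^ (d + 2) - ε) * n ≤
        (((∑ i ∈ range (n + 1), f i : ℕ) : ℝ) - 1) ^ (d + 2) := by
  obtain ⟨Kf, hKf⟩ : ∃ Kf : ℕ → ℝ, Kf = fun n => ((∑ i ∈ range (n + 1), f i : ℕ) : ℝ) := ⟨_, rfl⟩
  have hKf' : ∀ n, ((∑ i ∈ range (n + 1), f i : ℕ) : ℝ) = Kf n := fun n => by rw [hKf]
  simp only [hKf'] at hlow ⊢
  have hK1 : ∀ n, 1 ≤ Kf n := by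
    intro n
    have h1 : f 0 ≤ ∑ i ∈ range (n + 1), f i :=
      Finset.single_le_sum (fun _ _ => Nat.zero_le _) (mem_range.2 (by omega))
    rw [hf] at h1
    rw [← hKf']
    exact_mod_cast h1
  have hKm : Monotone Kf := by
    intro m n hmn
    rw [← hKf', ← hKf']
    exact_mod_cast Finset.sum_le_sum_of_subset (range_mono (by omega))
  obtain ⟨D, hD⟩ : ∃ D : ℝ, D = (d : ℝ) + 2 := ⟨_, rfl⟩
  rw [← hD]
  have hD0 : 0 < D := by rw [hD]; positivity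
  obtain ⟨θ, hθ⟩ : ∃ θ : ℝ, θ = 1 / D := ⟨_, rfl⟩
  rw [← hθ]
  have hθ0 : 0 < θ := by rw [hθ]; positivity
  have hDθ : D * θ = 1 := by rw [hθ]; field_simp
  obtain ⟨G, hG⟩ : ∃ G : ℝ, G = Real.Gamma (1 + θ) ^ (d + 2) := ⟨_, rfl⟩
  rw [← hG]
  have hG0 : 0 < G := by rw [hG]; exact pow_pos (Real.Gamma_pos_of_pos (by linarith)) _
  obtain ⟨l, hl⟩ : ∃ l : ℝ, l = κ / G := ⟨_, rfl⟩
  have hκ : κ = l * G := by rw [hl]; field_simp
  rw [← hl]
  by_cases hμ : l - ε ≤ 0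
  · refine ⟨1 / 2, by norm_num, Eventually.of_forall fun N => ⟨N, ?_, le_rfl, ?_⟩⟩
    · have : (0 : ℝ) ≤ N := Nat.cast_nonneg N
      linarith
    · have h1 : (0 : ℝ) ≤ N := Nat.cast_nonneg N
      have h2 := hK1 N
      have h3 : 0 ≤ (Kf N - 1) ^ (d + 2) := pow_nonneg (by linarith) _
      nlinarith
  rw [not_le] at hμ
  have hl0 : 0 < l := by linarith
  have hν0 : 0 < l - ε / 2 := by linarith
  obtain ⟨c, hc⟩ : ∃ c : ℝ, c = (l - ε / 2) ^ θ := ⟨_, rfl⟩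
  have hc0 : 0 < c := by rw [hc]; positivity
  have hDn : ((d + 2 : ℕ) : ℝ) = D := by rw [hD]; push_cast; ring
  have hcp : c ^ (d + 2) = l - ε / 2 := by
    rw [hc, ← Real.rpow_natCast, ← Real.rpow_mul hν0.le, hDn, mul_comm, hDθ, Real.rpow_one]
  -- `(μ n)^θ + 1 ≤ c n^θ`
  have hcmp : ∀ᶠ n : ℕ in atTop, ((l - ε) * n) ^ θ + 1 ≤ c * (n : ℝ) ^ θ := by
    have h1 : (l - ε) ^ θ < c := by
      rw [hc]
      exact Real.rpow_lt_rpow hμ.le (by linarith) hθ0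
    have h2 : ∀ᶠ n : ℕ in atTop, 1 / (c - (l - ε) ^ θ) ≤ (n : ℝ) ^ θ :=
      ((tendsto_rpow_atTop hθ0).comp tendsto_natCast_atTop_atTop).eventually_ge_atTop _
    filter_upwards [h2] with n g2
    rw [div_le_iff₀ (by linarith)] at g2
    rw [Real.mul_rpow hμ.le (Nat.cast_nonneg n)]
    nlinarith
  obtain ⟨n1, hn1⟩ := eventually_atTop.1 hcmp
  obtain ⟨δ, hδ⟩ : ∃ δ : ℝ, δ = min (1 / 2) (ε / (8 * D * l)) := ⟨_, rfl⟩
  have hδ0 : 0 < δ := by rw [hδ]; exact lt_min (by norm_num) (by positivity)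
  have hδ1 : δ ≤ 1 / 2 := by rw [hδ]; exact min_le_left _ _
  have hδ2 : l * D * δ ≤ ε / 8 := by
    have h1 : δ ≤ ε / (8 * D * l) := by rw [hδ]; exact min_le_right _ _
    rw [le_div_iff₀ (by positivity)] at h1
    linarith
  obtain ⟨C, hC0, hC⟩ := hlow (ε * G / 16) (by positivity)
  have hlog := log_small d (ε * G / 16 / (C * c ^ (d + 1) + 1)) (by positivity)
  refine ⟨δ, hδ0, ?_⟩
  have hbig : ∀ᶠ N : ℕ in atTop, (n1 : ℝ) ≤ δ * N ∧ l * D < ε / 4 * N := by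
    have h1 : Tendsto (fun N : ℕ => δ * (N : ℝ)) atTop atTop := tendsto_natCast_atTop_atTop.const_mul_atTop hδ0
    have h2 : Tendsto (fun N : ℕ => ε / 4 * (N : ℝ)) atTop atTop :=
      tendsto_natCast_atTop_atTop.const_mul_atTop (by positivity)
    exact (h1.eventually_ge_atTop _).and (h2.eventually_gt_atTop _)
  filter_upwards [hlog, hbig, eventually_ge_atTop 1] with N g1 g2 g3
  by_contra hcon
  push Not at hcon
  have hN0 : (1 : ℝ) ≤ N := by exact_mod_cast g3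
  -- the upper bound for the digit sums in the window
  have hup : ∀ n : ℕ, δ * N ≤ n → n ≤ N → Kf n ≤ c * (n : ℝ) ^ θ := by
    intro n h1 h2
    have h3 := hcon n h1 h2
    have h4 : n1 ≤ n := by exact_mod_cast g2.1.trans h1
    have h5 := hn1 n h4
    have h6 : Kf n - 1 ≤ ((l - ε) * n) ^ θ := by
      have h7 : 0 ≤ Kf n - 1 := by linarith [hK1 n]
      have h8 : ((Kf n - 1) ^ (d + 2)) ^ θ ≤ ((l - ε) * n) ^ θ :=
        Real.rpow_le_rpow (pow_nonneg h7 _) h3.le hθ0.le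
      have h9 : ((Kf n - 1) ^ (d + 2)) ^ θ = Kf n - 1 := by
        rw [← Real.rpow_natCast, ← Real.rpow_mul h7, hDn, hDθ, Real.rpow_one]
      rwa [h9] at h8
    linarith
  have hδN : δ * N ≤ N := by nlinarith
  have hF : ∀ t ≤ N, ((∑ i ∈ range (t + 1), f i : ℕ) : ℝ) ≤ c * ((t : ℝ) + (δ * N + 1)) ^ θ := by
    intro t ht
    rw [hKf']
    have ht0 : (0 : ℝ) ≤ t := Nat.cast_nonneg t
    have hu0 : 0 ≤ δ * N := by positivity
    rcases le_or_gt (δ * N) t with h1 | h1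
    · refine (hup t h1 ht).trans ?_
      apply mul_le_mul_of_nonneg_left _ hc0.le
      exact Real.rpow_le_rpow ht0 (by linarith) hθ0.le
    · obtain ⟨s, hs⟩ : ∃ s : ℕ, s = ⌈δ * (N : ℝ)⌉₊ := ⟨_, rfl⟩
      have hs1 : δ * N ≤ s := by rw [hs]; exact Nat.le_ceil _
      have hs2 : s ≤ N := by rw [hs]; exact Nat.ceil_le.2 hδN
      have hs3 : (s : ℝ) ≤ δ * N + 1 := by rw [hs]; exact (Nat.ceil_lt_add_one hu0).le
      have hts : t ≤ s := by exact_mod_cast h1.le.trans hs1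
      refine (hKm hts).trans ((hup s hs1 hs2).trans ?_)
      apply mul_le_mul_of_nonneg_left _ hc0.le
      exact Real.rpow_le_rpow (Nat.cast_nonneg s) (by linarith) hθ0.le
  have hst := stohr f c (δ * N + 1) θ hc0.le (by positivity) hθ0 N hF (d + 1) N le_rfl
  have e1 : (((d + 1 : ℕ) : ℝ) + 1) = D := by rw [hD]; push_cast; ring
  rw [e1, hDθ, Real.rpow_one, show (d + 1 + 1 : ℕ) = d + 2 by rfl, hcp, ← hG] at hst
  have e2 : Real.Gamma (1 + 1) = 1 := by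
    rw [show (1 : ℝ) + 1 = 2 by norm_num]
    exact Real.Gamma_two
  rw [e2, div_one] at hst
  have hlo := (hC N).trans hst
  have hKN := hup N hδN le_rfl
  have hK0 : 0 ≤ Kf N := by linarith [hK1 N]
  have hpow : Kf N ^ (d + 1) ≤ c ^ (d + 1) * ((N : ℝ) ^ θ) ^ (d + 1) := by
    rw [← mul_pow]
    exact pow_le_pow_left₀ hK0 hKN _
  have hNθ : (N : ℝ) ^ θ * ((N : ℝ) ^ θ) ^ (d + 1) = N := by
    rw [← pow_succ', ← Real.rpow_natCast, ← Real.rpow_mul (by linarith), show (d + 1 + 1 : ℕ) = d + 2 by rfl, hDn,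
      mul_comm, hDθ, Real.rpow_one]
  rw [show (1 : ℝ) / ((d : ℝ) + 2) = θ by rw [hθ, hD]] at g1
  have hA0 : 0 < C * c ^ (d + 1) + 1 := by positivity
  have herr : C * (1 + Real.log ((N : ℝ) + 1)) * Kf N ^ (d + 1) ≤ ε * G / 16 * N := by
    have h1 : 0 ≤ 1 + Real.log ((N : ℝ) + 1) := by
      have := Real.log_nonneg (show (1 : ℝ) ≤ (N : ℝ) + 1 by linarith)
      linarith
    calc C * (1 + Real.log ((N : ℝ) + 1)) * Kf N ^ (d + 1)
        ≤ C * (ε * G / 16 / (C * c ^ (d + 1) + 1) * (N : ℝ) ^ θ) * (c ^ (d + 1) * ((N : ℝ) ^ θ) ^ (d + 1)) := by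
          apply mul_le_mul _ hpow (by positivity) (by positivity)
          exact mul_le_mul_of_nonneg_left g1 hC0
      _ = ε * G / 16 * (C * c ^ (d + 1) / (C * c ^ (d + 1) + 1)) * ((N : ℝ) ^ θ * ((N : ℝ) ^ θ) ^ (d + 1)) := by
          field_simp
      _ = ε * G / 16 * (C * c ^ (d + 1) / (C * c ^ (d + 1) + 1)) * N := by rw [hNθ]
      _ ≤ ε * G / 16 * 1 * N := by
          apply mul_le_mul_of_nonneg_right _ (by linarith)
          apply mul_le_mul_of_nonneg_left _ (by positivity)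
          rw [div_le_one hA0]
          linarith
      _ = _ := by ring
  have hfin : (l * N - ε / 8 * N) * G ≤ ((l - ε / 2) * ((N : ℝ) + D * (δ * N + 1))) * G := by
    rw [hκ] at hlo
    nlinarith
  have hfin2 := le_of_mul_le_mul_right hfin hG0
  have h5 : (l - ε / 2) * (D * (δ * N + 1)) ≤ ε / 8 * N + l * D := by
    have h6 : (l - ε / 2) * (D * (δ * N + 1)) ≤ l * (D * (δ * N + 1)) := by
      apply mul_le_mul_of_nonneg_right (by linarith) (by positivity)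
    have h7 : l * (D * (δ * N + 1)) = (l * D * δ) * N + l * D := by ring
    have h8 : (l * D * δ) * N ≤ ε / 8 * N := mul_le_mul_of_nonneg_right hδ2 (by linarith)
    linarith
  nlinarith [g2.2]

/-- from one element in each window to positive density -/
theorem dens (g : ℕ → ℝ) (hg : Monotone g) (hg0 : ∀ n, 0 ≤ g n) (l : ℝ) (e : ℕ)
    (h : ∀ ε : ℝ, 0 < ε → ∃ δ : ℝ, 0 < δ ∧ ∀ᶠ N : ℕ in atTop, ∃ n : ℕ, δ * N ≤ n ∧ n ≤ N ∧ (l - ε) * n ≤ g n ^ e)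
    (ε : ℝ) (hε : 0 < ε) :
    ∃ η : ℝ, 0 < η ∧ ∀ᶠ N : ℕ in atTop, η * N ≤ (((Icc 1 N).filter (fun n => (l - ε) * n ≤ g n ^ e)).card : ℝ) := by
  by_cases hμ : l - ε ≤ 0
  · refine ⟨1, one_pos, Eventually.of_forall fun N => ?_⟩
    have h1 : (Icc 1 N).filter (fun n : ℕ => (l - ε) * n ≤ g n ^ e) = Icc 1 N := by
      apply Finset.filter_true_of_mem
      intro n _
      have h2 : (0 : ℝ) ≤ n := Nat.cast_nonneg n
      have h3 := pow_nonneg (hg0 n) e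
      nlinarith
    rw [h1, Nat.card_Icc, one_mul]
    simp
  rw [not_le] at hμ
  have hl0 : 0 < l := by linarith
  obtain ⟨δ, hδ, h1⟩ := h (ε / 2) (by positivity)
  obtain ⟨τ, hτ⟩ : ∃ τ : ℝ, τ = min 1 (ε / (2 * l)) := ⟨_, rfl⟩
  have hτ0 : 0 < τ := by rw [hτ]; exact lt_min one_pos (by positivity)
  have hτ1 : τ ≤ 1 := by rw [hτ]; exact min_le_left _ _
  have hτ2 : l * τ ≤ ε / 2 := by
    have h2 : τ ≤ ε / (2 * l) := by rw [hτ]; exact min_le_right _ _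
    rw [le_div_iff₀ (by positivity)] at h2
    linarith
  refine ⟨τ * δ / 4, by positivity, ?_⟩
  have h2 : Tendsto (fun N : ℕ => N / 2) atTop atTop := Nat.tendsto_div_const_atTop (by norm_num)
  filter_upwards [h2.eventually h1, eventually_ge_atTop 2] with N g1 g2
  obtain ⟨n, k1, k2, k3⟩ := g1
  have hM : (N : ℝ) / 4 ≤ ((N / 2 : ℕ) : ℝ) := by
    have h3 : N ≤ 4 * (N / 2) := by omega
    have h4 : (N : ℝ) ≤ 4 * ((N / 2 : ℕ) : ℝ) := by exact_mod_cast h3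
    linarith
  have hN : (2 : ℝ) ≤ N := by exact_mod_cast g2
  have hn0 : (0 : ℝ) < n := by
    have : 0 < δ * ((N / 2 : ℕ) : ℝ) := by
      apply mul_pos hδ
      linarith
    linarith
  have hn1 : 1 ≤ n := by exact_mod_cast hn0
  have hsub : Icc n (n + ⌊τ * n⌋₊) ⊆ (Icc 1 N).filter (fun n : ℕ => (l - ε) * n ≤ g n ^ e) := by
    intro m hm
    rw [mem_Icc] at hm
    have hfl : (⌊τ * n⌋₊ : ℝ) ≤ τ * n := Nat.floor_le (by positivity)
    have hm2 : (m : ℝ) ≤ (1 + τ) * n := by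
      have : (m : ℝ) ≤ ((n + ⌊τ * n⌋₊ : ℕ) : ℝ) := by exact_mod_cast hm.2
      push_cast at this
      linarith
    rw [mem_filter, mem_Icc]
    refine ⟨⟨by omega, ?_⟩, ?_⟩
    · have h3 : ⌊τ * n⌋₊ ≤ n := by
        have : (⌊τ * n⌋₊ : ℝ) ≤ n := hfl.trans (by nlinarith)
        exact_mod_cast this
      omega
    · calc (l - ε) * m ≤ (l - ε) * ((1 + τ) * n) := mul_le_mul_of_nonneg_left hm2 hμ.le
        _ = ((l - ε) + (l - ε) * τ) * n := by ring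
        _ ≤ (l - ε / 2) * n := by
            apply mul_le_mul_of_nonneg_right _ hn0.le
            nlinarith
        _ ≤ g n ^ e := k3
        _ ≤ g m ^ e := pow_le_pow_left₀ (hg0 n) (hg hm.1) e
  have hcard := Finset.card_le_card hsub
  rw [Nat.card_Icc] at hcard
  have h3 : τ * n ≤ ((n + ⌊τ * n⌋₊ + 1 - n : ℕ) : ℝ) := by
    have h4 : n + ⌊τ * n⌋₊ + 1 - n = ⌊τ * n⌋₊ + 1 := by omega
    rw [h4]
    push_cast
    exact (Nat.lt_floor_add_one _).le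
  have h5 : ((n + ⌊τ * n⌋₊ + 1 - n : ℕ) : ℝ) ≤ (((Icc 1 N).filter (fun n : ℕ => (l - ε) * n ≤ g n ^ e)).card : ℝ) := by
    exact_mod_cast hcard
  calc τ * δ / 4 * N = τ * (δ * (N / 4)) := by ring
    _ ≤ τ * (δ * ((N / 2 : ℕ) : ℝ)) := by
        apply mul_le_mul_of_nonneg_left _ hτ0.le
        exact mul_le_mul_of_nonneg_left hM hδ.le
    _ ≤ τ * n := mul_le_mul_of_nonneg_left k1 hτ0.le
    _ ≤ _ := h3.trans h5

end Pool.Agent.U746.ST
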