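import Pool.Agent.H820R3.DG.Real
import Pool.Agent.U746.ST.Fin

set_option autoImplicit false

/-! # Digit sums of algebraic numbers -/

open Finset Filter Polynomial

namespace Pool.Agent.U746.ST

open Pool.Agent.H394R2.Ones
open Pool.Agent.H820R3.DG

/-- positive leading coefficient -/
theorem alg_real {b : ℕ} (hb : 2 ≤ b) (P : ℤ[X]) (hD : 2 ≤ P.natDegree)
    (hlead : 0 < P.leadingCoeff) {ξ : ℝ} (hirr : Irrational ξ) (hP : aeval ξ P = 0)
    (W cW : ℕ) (hW0 : 1 ≤ W) (hW : ∀ t : ℤ, (cW : ℤ) ≤ ∑ j ∈ range W,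
      (((b : ℤ) ^ j * t - 1) % (P.leadingCoeff * (P.natDegree.factorial : ℤ)) + 1))
    (ε : ℝ) (hε : 0 < ε) :
    ∃ η : ℝ, 0 < η ∧ ∀ᶠ N : ℕ in atTop, η * N ≤ (((Icc 1 N).filter (fun n =>
      (((b : ℝ) - 1) * cW / (W * P.leadingCoeff) / Real.Gamma (1 + 1 / (P.natDegree : ℝ)) ^ P.natDegree - ε) * n ≤
        ((∑ k ∈ Icc 1 n, digit b ξ k : ℤ) : ℝ) ^ P.natDegree)).card : ℝ) := by
  obtain ⟨d, hd⟩ : ∃ d, P.natDegree = d + 2 := ⟨P.natDegree - 2, by omega⟩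
  set y : ℝ := Int.fract ξ with hy
  have hyirr : Irrational y := by
    have : y = ξ - (⌊ξ⌋ : ℤ) := rfl
    rw [this]
    exact hirr.sub_intCast _
  have hy0 : 0 < y := lt_of_le_of_ne (Int.fract_nonneg ξ) (Ne.symm hyirr.ne_zero)
  have hy1 : y < 1 := Int.fract_lt_one ξ
  set r : ℤ := ⌊ξ⌋ - 1 with hr
  set Q : ℤ[X] := P.comp (X + C r) with hQ
  have hQdeg : Q.natDegree = d + 2 := by
    rw [hQ, natDegree_comp, natDegree_X_add_C, mul_one, hd]
  have hQlead : Q.leadingCoeff = P.leadingCoeff := by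
    rw [hQ, leadingCoeff_comp (by rw [natDegree_X_add_C]; norm_num), leadingCoeff_X_add_C,
      one_pow, mul_one]
  have hQ0 : aeval (1 + y) Q = 0 := by
    rw [hQ, aeval_comp]
    have : aeval (1 + y) (X + C r : ℤ[X]) = ξ := by
      have h1 : (⌊ξ⌋ : ℝ) + y = ξ := Int.floor_add_fract ξ
      have h2 : aeval (1 + y) (X + C r : ℤ[X]) = (1 + y) + (r : ℝ) := by
        rw [map_add, aeval_X, aeval_C]; rfl
      rw [h2, hr]
      push_cast
      linarith
    rw [this]; exact hP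
  have hQsum : ∑ k ∈ range (d + 2 + 1), (Q.coeff k : ℝ) * (1 + y) ^ k = 0 := by
    rw [aeval_eq_sum_range, hQdeg] at hQ0
    simpa [zsmul_eq_mul] using hQ0
  have hcoeff : Q.coeff (d + 2) = P.leadingCoeff := by
    rw [← hQlead]
    unfold leadingCoeff
    rw [hQdeg]
  have hξalg : IsAlgebraic ℚ ξ := by
    have h1 : IsAlgebraic ℤ ξ := ⟨P, by
      intro h
      rw [h] at hlead
      simp at hlead, hP⟩
    exact (IsFractionRing.isAlgebraic_iff ℤ ℚ ℝ).mp h1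
  have halg : IsAlgebraic ℚ y := by
    have h1 : y = ξ - algebraMap ℚ ℝ (⌊ξ⌋ : ℚ) := by
      have : y = ξ - (⌊ξ⌋ : ℤ) := rfl
      rw [this]; simp
    rw [h1]
    exact hξalg.sub (isAlgebraic_algebraMap _)
  have hKK : ∀ n, ((∑ i ∈ range (n + 1), xx b y i : ℕ) : ℝ) = (K b y n : ℝ) + 1 := by
    intro n
    have h1 : ∑ i ∈ range (n + 1), xx b y i = KK b y n := rfl
    rw [h1, KK_eq hy0 hy1]
    push_cast
    rfl
  have hwin : ∀ ε : ℝ, 0 < ε → ∃ δ : ℝ, 0 < δ ∧ ∀ᶠ N : ℕ in atTop, ∃ n : ℕ, δ * N ≤ n ∧ n ≤ N ∧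
      (((b : ℝ) - 1) * cW / (W * P.leadingCoeff) / Real.Gamma (1 + 1 / (P.natDegree : ℝ)) ^ P.natDegree - ε) * n ≤
        (K b y n : ℝ) ^ P.natDegree := by
    intro ε hε
    have h1 := win d (xx b y) xx_zero (((b : ℝ) - 1) * cW / (W * P.leadingCoeff)) ?_ ε hε
    · obtain ⟨δ, hδ, h2⟩ := h1
      refine ⟨δ, hδ, ?_⟩
      filter_upwards [h2] with N hN
      obtain ⟨n, g1, g2, g3⟩ := hN
      refine ⟨n, g1, g2, ?_⟩
      rw [hKK, add_sub_cancel_right] at g3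
      rw [hd]
      push_cast
      exact g3
    · intro δ hδ
      obtain ⟨C, hC0, hC⟩ := deg_low Pool.Agent.H726R3.FactDvd.factStmt hb hy0 hy1 halg hyirr d
        (fun k => Q.coeff k) hQsum (by
          show 0 < Q.coeff (d + 2)
          rw [hcoeff]; exact hlead) W cW hW0 (by
          intro t
          show (cW : ℤ) ≤ ∑ j ∈ range W,
            (((b : ℤ) ^ j * t - 1) % (Q.coeff (d + 2) * ((d + 2).factorial : ℤ)) + 1)
          rw [hcoeff, ← hd]
          exact hW t) δ hδ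
      refine ⟨C, hC0, fun n => ?_⟩
      have h2 := hC n
      simp only [hcoeff] at h2
      unfold RS at h2
      push_cast
      unfold KK at h2
      push_cast at h2
      exact h2
  have hmono : Monotone (fun n => (K b y n : ℝ)) := by
    intro m n hmn
    exact Nat.cast_le.2 (K_mono hmn)
  obtain ⟨η, hη, h3⟩ := dens (fun n => (K b y n : ℝ)) hmono (fun n => Nat.cast_nonneg _) _ _ hwin ε hε
  refine ⟨η, hη, ?_⟩
  filter_upwards [h3] with N hN
  refine hN.trans (le_of_eq ?_)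
  congr 2
  apply Finset.filter_congr
  intro n _
  rw [digit_sum_eq hb hirr]

/-- both for the digits and the complementary digits, any sign of the leading coefficient -/
theorem alg_both {b : ℕ} (hb : 2 ≤ b) (P : ℤ[X]) (hD : 2 ≤ P.natDegree) {ξ : ℝ}
    (hirr : Irrational ξ) (hP : aeval ξ P = 0)
    (W cW : ℕ) (hW0 : 1 ≤ W) (hW : ∀ t : ℤ, (cW : ℤ) ≤ ∑ j ∈ range W,
      (((b : ℤ) ^ j * t - 1) % (|P.leadingCoeff| * (P.natDegree.factorial : ℤ)) + 1))
    (ε : ℝ) (hε : 0 < ε) :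
    ∃ η : ℝ, 0 < η ∧ ∀ᶠ N : ℕ in atTop,
      η * N ≤ (((Icc 1 N).filter (fun n =>
        (((b : ℝ) - 1) * cW / (W * |(P.leadingCoeff : ℝ)|) / Real.Gamma (1 + 1 / (P.natDegree : ℝ)) ^ P.natDegree - ε) * n ≤
          ((∑ k ∈ Icc 1 n, digit b ξ k : ℤ) : ℝ) ^ P.natDegree)).card : ℝ) ∧
      η * N ≤ (((Icc 1 N).filter (fun n =>
        (((b : ℝ) - 1) * cW / (W * |(P.leadingCoeff : ℝ)|) / Real.Gamma (1 + 1 / (P.natDegree : ℝ)) ^ P.natDegree - ε) * n ≤
          ((∑ k ∈ Icc 1 n, (b - 1 - digit b ξ k) : ℤ) : ℝ) ^ P.natDegree)).card : ℝ) := by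
  have hP0 : P ≠ 0 := by rintro rfl; simp at hD
  have hl0 : P.leadingCoeff ≠ 0 := leadingCoeff_ne_zero.mpr hP0
  have key : ∀ (x : ℝ), Irrational x → (∃ R : ℤ[X], R.natDegree = P.natDegree ∧
      |R.leadingCoeff| = |P.leadingCoeff| ∧ aeval x R = 0) →
      ∃ η : ℝ, 0 < η ∧ ∀ᶠ N : ℕ in atTop, η * N ≤ (((Icc 1 N).filter (fun n =>
        (((b : ℝ) - 1) * cW / (W * |(P.leadingCoeff : ℝ)|) / Real.Gamma (1 + 1 / (P.natDegree : ℝ)) ^ P.natDegree - ε) * n ≤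
          ((∑ k ∈ Icc 1 n, digit b x k : ℤ) : ℝ) ^ P.natDegree)).card : ℝ) := by
    intro x hx ⟨R, hR1, hR2, hR3⟩
    have habs : |(P.leadingCoeff : ℝ)| = ((|P.leadingCoeff| : ℤ) : ℝ) := by push_cast; rfl
    rcases lt_or_gt_of_ne (show R.leadingCoeff ≠ 0 by
      intro h; rw [h, abs_zero] at hR2; exact hl0 (abs_eq_zero.mp hR2.symm)) with h | h
    · have h1 : (-R).leadingCoeff = |P.leadingCoeff| := by
        rw [leadingCoeff_neg, ← hR2, abs_of_neg h]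
      have h2 : (-R).natDegree = P.natDegree := by rw [natDegree_neg, hR1]
      have h3 := alg_real hb (-R) (by rw [h2]; exact hD) (by rw [h1]; exact abs_pos.mpr hl0)
        hx (by rw [map_neg, hR3, neg_zero]) W cW hW0 (by rw [h1, h2]; exact hW) ε hε
      rw [h1, h2] at h3
      rw [habs]; exact h3
    · have h1 : R.leadingCoeff = |P.leadingCoeff| := by rw [← hR2, abs_of_pos h]
      have h3 := alg_real hb R (by rw [hR1]; exact hD) h hx hR3 W cW hW0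
        (by rw [h1, hR1]; exact hW) ε hε
      rw [h1, hR1] at h3
      rw [habs]; exact h3
  obtain ⟨η1, hη1, h1⟩ := key ξ hirr ⟨P, rfl, rfl, hP⟩
  obtain ⟨η2, hη2, h2⟩ := key (-ξ) hirr.neg ⟨P.comp (-X), by
      rw [natDegree_comp, natDegree_neg, natDegree_X, mul_one], by
      rw [leadingCoeff_comp (by rw [natDegree_neg, natDegree_X]; norm_num), leadingCoeff_neg,
        leadingCoeff_X, abs_mul, abs_pow, abs_neg, abs_one, one_pow, mul_one], by
      rw [aeval_comp]; simpa using hP⟩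
  refine ⟨min η1 η2, lt_min hη1 hη2, ?_⟩
  filter_upwards [h1, h2] with N g1 g2
  have hN : (0 : ℝ) ≤ N := Nat.cast_nonneg N
  refine ⟨(mul_le_mul_of_nonneg_right (min_le_left _ _) hN).trans g1,
    (mul_le_mul_of_nonneg_right (min_le_right _ _) hN).trans ?_⟩
  simpa only [digit_neg hb hirr] using g2

/-- the version with a common divisor -/
theorem alg_gcd {b : ℕ} (hb : 2 ≤ b) (P : ℤ[X]) (hD : 2 ≤ P.natDegree) {ξ : ℝ}
    (hirr : Irrational ξ) (hP : aeval ξ P = 0) (g v : ℕ) (hg1 : g ∣ b ^ v)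
    (hg2 : (g : ℤ) ∣ P.leadingCoeff * (P.natDegree.factorial : ℤ)) (ε : ℝ) (hε : 0 < ε) :
    ∃ η : ℝ, 0 < η ∧ ∀ᶠ N : ℕ in atTop,
      η * N ≤ (((Icc 1 N).filter (fun n =>
        (((b : ℝ) - 1) * g / |(P.leadingCoeff : ℝ)| / Real.Gamma (1 + 1 / (P.natDegree : ℝ)) ^ P.natDegree - ε) * n ≤
          ((∑ k ∈ Icc 1 n, digit b ξ k : ℤ) : ℝ) ^ P.natDegree)).card : ℝ) ∧
      η * N ≤ (((Icc 1 N).filter (fun n =>
        (((b : ℝ) - 1) * g / |(P.leadingCoeff : ℝ)| / Real.Gamma (1 + 1 / (P.natDegree : ℝ)) ^ P.natDegree - ε) * n ≤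
          ((∑ k ∈ Icc 1 n, (b - 1 - digit b ξ k) : ℤ) : ℝ) ^ P.natDegree)).card : ℝ) := by
  have hb2 : (2 : ℝ) ≤ b := by exact_mod_cast hb
  have hP0 : P ≠ 0 := by rintro rfl; simp at hD
  have hl0 : P.leadingCoeff ≠ 0 := leadingCoeff_ne_zero.mpr hP0
  set a : ℝ := |(P.leadingCoeff : ℝ)| with ha
  have ha1 : 0 < a := abs_pos.mpr (by exact_mod_cast hl0)
  obtain ⟨G, hG⟩ : ∃ G : ℝ, G = Real.Gamma (1 + 1 / (P.natDegree : ℝ)) ^ P.natDegree := ⟨_, rfl⟩
  have hG0 : 0 < G := by rw [hG]; exact pow_pos (Real.Gamma_pos_of_pos (by positivity)) _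
  set M : ℤ := |P.leadingCoeff| * (P.natDegree.factorial : ℤ) with hM
  have hM0 : 0 < M := mul_pos (abs_pos.mpr hl0) (by exact_mod_cast Nat.factorial_pos _)
  have hgM : (g : ℤ) ∣ M := by
    rw [hM]
    rcases abs_choice P.leadingCoeff with h | h <;> rw [h]
    · exact hg2
    · rw [neg_mul]; exact (dvd_neg).mpr hg2
  obtain ⟨W, hW⟩ := exists_nat_ge (((b : ℝ) - 1) * g * v / (a * G * (ε / 2)) + v + 1)
  have hWv : v + 1 ≤ W := by
    have h0 : 0 ≤ ((b : ℝ) - 1) * g * v / (a * G * (ε / 2)) := by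
      have : 0 ≤ (b : ℝ) - 1 := by linarith
      positivity
    have : ((v + 1 : ℕ) : ℝ) ≤ W := by push_cast; linarith
    exact_mod_cast this
  have hW1 : 1 ≤ W := by omega
  have hWR : (0 : ℝ) < W := by exact_mod_cast (by omega : 0 < W)
  have hterm : ∀ t : ℤ, ∀ j, v ≤ j → (g : ℤ) ≤ ((b : ℤ) ^ j * t - 1) % M + 1 := by
    intro t j hj
    set u := ((b : ℤ) ^ j * t - 1) % M + 1 with hu
    have h1 : 0 < u := by
      have := Int.emod_nonneg ((b : ℤ) ^ j * t - 1) hM0.ne'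
      omega
    refine Int.le_of_dvd h1 ?_
    have h2 := Int.emod_add_mul_ediv ((b : ℤ) ^ j * t - 1) M
    have h3 : u = (b : ℤ) ^ j * t - M * (((b : ℤ) ^ j * t - 1) / M) := by
      rw [hu]; linarith
    rw [h3]
    have h4 : (g : ℤ) ∣ (b : ℤ) ^ j := by
      have h5 : g ∣ b ^ j := hg1.trans (pow_dvd_pow b hj)
      exact_mod_cast h5
    exact dvd_sub (Dvd.dvd.mul_right h4 _) (Dvd.dvd.mul_right hgM _)
  have hwin : ∀ t : ℤ, ((g * (W - v) : ℕ) : ℤ) ≤ ∑ j ∈ range W, (((b : ℤ) ^ j * t - 1) % M + 1) := by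
    intro t
    have h1 : ∑ j ∈ range W, (if v ≤ j then (g : ℤ) else 0) ≤
        ∑ j ∈ range W, (((b : ℤ) ^ j * t - 1) % M + 1) := by
      refine sum_le_sum fun j _ => ?_
      split_ifs with h
      · exact hterm t j h
      · have := Int.emod_nonneg ((b : ℤ) ^ j * t - 1) hM0.ne'
        omega
    refine le_trans (le_of_eq ?_) h1
    rw [← sum_filter, sum_const, nsmul_eq_mul]
    have h2 : ((range W).filter (fun j => v ≤ j)) = Ico v W := by
      ext j; simp only [mem_filter, mem_range, mem_Ico]; tauto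
    rw [h2, Nat.card_Ico]
    push_cast
    ring
  obtain ⟨η, hη, h0⟩ := alg_both hb P hD hirr hP W (g * (W - v)) hW1 hwin (ε / 2) (by positivity)
  rw [← hG] at h0 ⊢
  have hcmp : ((b : ℝ) - 1) * g / a / G - ε ≤
      ((b : ℝ) - 1) * ((g * (W - v) : ℕ) : ℝ) / (W * a) / G - ε / 2 := by
    have h1 : ((b : ℝ) - 1) * g * v / (W * a * G) ≤ ε / 2 := by
      rw [div_le_iff₀ (by positivity)]
      have h2 : ((b : ℝ) - 1) * g * v / (a * G * (ε / 2)) ≤ W := by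
        have : (0 : ℝ) ≤ v := Nat.cast_nonneg v
        linarith
      rw [div_le_iff₀ (by positivity)] at h2
      linarith
    have h3 : ((g * (W - v) : ℕ) : ℝ) = g * (W - v) := by
      rw [Nat.cast_mul, Nat.cast_sub (by omega)]
    have h4 : ((b : ℝ) - 1) * (g * ((W : ℝ) - v)) / (W * a) / G = ((b : ℝ) - 1) * g / a / G - ((b : ℝ) - 1) * g * v / (W * a * G) := by
      field_simp
    rw [h3, h4]
    linarith
  refine ⟨η, hη, ?_⟩
  filter_upwards [h0] with N hN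
  refine ⟨hN.1.trans ?_, hN.2.trans ?_⟩
  · have : ((Icc 1 N).filter (fun n : ℕ => (((b : ℝ) - 1) * ((g * (W - v) : ℕ) : ℝ) / (W * a) / G - ε / 2) * n ≤
        ((∑ k ∈ Icc 1 n, digit b ξ k : ℤ) : ℝ) ^ P.natDegree)).card ≤
        ((Icc 1 N).filter (fun n : ℕ => (((b : ℝ) - 1) * g / a / G - ε) * n ≤
        ((∑ k ∈ Icc 1 n, digit b ξ k : ℤ) : ℝ) ^ P.natDegree)).card := by
      apply Finset.card_le_card
      intro n hn
      rw [mem_filter] at hn ⊢
      exact ⟨hn.1, (mul_le_mul_of_nonneg_right hcmp (Nat.cast_nonneg n)).trans hn.2⟩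
    exact Nat.cast_le.2 this
  · have : ((Icc 1 N).filter (fun n : ℕ => (((b : ℝ) - 1) * ((g * (W - v) : ℕ) : ℝ) / (W * a) / G - ε / 2) * n ≤
        ((∑ k ∈ Icc 1 n, (b - 1 - digit b ξ k) : ℤ) : ℝ) ^ P.natDegree)).card ≤
        ((Icc 1 N).filter (fun n : ℕ => (((b : ℝ) - 1) * g / a / G - ε) * n ≤
        ((∑ k ∈ Icc 1 n, (b - 1 - digit b ξ k) : ℤ) : ℝ) ^ P.natDegree)).card := by
      apply Finset.card_le_card
      intro n hn
      rw [mem_filter] at hn ⊢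
      exact ⟨hn.1, (mul_le_mul_of_nonneg_right hcmp (Nat.cast_nonneg n)).trans hn.2⟩
    exact Nat.cast_le.2 this

end Pool.Agent.U746.ST
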