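import Pool.Agent.U746.ST.Low

set_option autoImplicit false

/-! # The lower bound for the sums of the representation numbers over windows -/

open Finset Filter

namespace Pool.Agent.U746.ST

open Pool.Agent.H394R2.Ones
open Pool.Agent.H820R3.DG

variable {b : ℕ} {y : ℝ}

lemma TT_key (d n : ℕ) :
    ((b : ℝ) - 1) * ∑ N ∈ range n, TT b y d N + TT b y d 0 + rr (xx b y) d 0 = TT b y d n + RS b y d n := by
  unfold RS
  induction n with
  | zero => simp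
  | succ n ih =>
    rw [sum_range_succ, sum_range_succ _ (n + 1), TT_succ]
    linarith

lemma TT_win (hb : 2 ≤ b) (hy0 : 0 < y) (hy1 : y < 1) (d : ℕ) {m n : ℕ} (hmn : m ≤ n) :
    ((b : ℝ) - 1) * ∑ N ∈ Ico m n, TT b y d N ≤ TT b y d n + (RS b y d n - RS b y d m) := by
  have h1 := TT_key (b := b) (y := y) d m
  have h2 := TT_key (b := b) (y := y) d n
  have h3 := TT_nonneg hb hy0 hy1 d m
  have h4 : ∑ N ∈ Ico m n, TT b y d N = ∑ N ∈ range n, TT b y d N - ∑ N ∈ range m, TT b y d N := by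
    rw [← Finset.sum_range_add_sum_Ico _ hmn]
    ring
  rw [h4, mul_sub]
  linarith

open Classical in
/-- sums over windows of positions -/
lemma block_sum2 (hb : 2 ≤ b) (hy0 : 0 < y) (hy1 : y < 1) (d : ℕ) (c : ℕ → ℤ)
    (hP : ∑ k ∈ range (d + 2 + 1), (c k : ℝ) * (1 + y) ^ k = 0) (hc : 0 < c (d + 2)) (W cW : ℕ)
    (hW : ∀ t : ℤ, (cW : ℤ) ≤ ∑ j ∈ range W,
      (((b : ℤ) ^ j * t - 1) % (c (d + 2) * ((d + 2).factorial : ℤ)) + 1)) (m Q : ℕ) :
    (cW : ℝ) * Q ≤ ∑ N ∈ Ico m (m + W * Q), (max (ZZ c (d + 2) (xx b y) b N : ℝ) 0 +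
      cW * (if Dirty b y d (∑ k ∈ range (d + 2), |(c k : ℝ)|) N then 1 else 0)) := by
  induction Q with
  | zero => simp
  | succ Q ih =>
    rw [Nat.mul_succ, ← add_assoc, ← Finset.sum_Ico_consecutive _ (Nat.le_add_right m (W * Q))
      (Nat.le_add_right (m + W * Q) W)]
    push_cast
    have hreix : ∀ F : ℕ → ℝ, ∑ N ∈ Ico (m + W * Q) (m + W * Q + W), F N = ∑ j ∈ range W, F (m + W * Q + j) := by
      intro F
      rw [Finset.sum_Ico_eq_sum_range]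
      congr 2
      omega
    rw [hreix]
    have h1 : (cW : ℝ) ≤ ∑ j ∈ range W, (max (ZZ c (d + 2) (xx b y) b (m + W * Q + j) : ℝ) 0 +
        cW * (if Dirty b y d (∑ k ∈ range (d + 2), |(c k : ℝ)|) (m + W * Q + j) then 1 else 0)) := by
      have hnn : ∀ j ∈ range W, 0 ≤ (max (ZZ c (d + 2) (xx b y) b (m + W * Q + j) : ℝ) 0 +
          cW * (if Dirty b y d (∑ k ∈ range (d + 2), |(c k : ℝ)|) (m + W * Q + j) then 1 else 0)) := by
        intro j _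
        have h2 : (0 : ℝ) ≤ cW * (if Dirty b y d (∑ k ∈ range (d + 2), |(c k : ℝ)|) (m + W * Q + j)
          then 1 else 0) := by split_ifs <;> positivity
        have h3 : (0 : ℝ) ≤ max (ZZ c (d + 2) (xx b y) b (m + W * Q + j) : ℝ) 0 := le_max_right _ _
        linarith
      by_cases hd : ∃ j, j < W ∧ Dirty b y d (∑ k ∈ range (d + 2), |(c k : ℝ)|) (m + W * Q + j)
      · obtain ⟨j, hj, hdj⟩ := hd
        refine le_trans ?_ (single_le_sum hnn (mem_range.mpr hj))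
        rw [if_pos hdj]
        have h3 : (0 : ℝ) ≤ max (ZZ c (d + 2) (xx b y) b (m + W * Q + j) : ℝ) 0 := le_max_right _ _
        linarith
      · push Not at hd
        have h2 := window d c hb hy0 hy1 hP hc W cW (m + W * Q) hW hd
        have h3 : (cW : ℝ) ≤ ∑ j ∈ range W, (ZZ c (d + 2) (xx b y) b (m + W * Q + j) : ℝ) := by
          exact_mod_cast h2
        refine h3.trans (sum_le_sum fun j hj => ?_)
        rw [if_neg (hd j (mem_range.mp hj))]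
        have := le_max_left (ZZ c (d + 2) (xx b y) b (m + W * Q + j) : ℝ) 0
        linarith
    linarith

theorem deg_low2 (hFact : FactStmt) (hb : 2 ≤ b) (hy0 : 0 < y) (hy1 : y < 1)
    (halg : IsAlgebraic ℚ y) (hirr : Irrational y) (d : ℕ) (c : ℕ → ℤ)
    (hP : ∑ k ∈ range (d + 2 + 1), (c k : ℝ) * (1 + y) ^ k = 0) (hc : 0 < c (d + 2)) (W cW : ℕ)
    (hW0 : 1 ≤ W) (hW : ∀ t : ℤ, (cW : ℤ) ≤ ∑ j ∈ range W,
      (((b : ℤ) ^ j * t - 1) % (c (d + 2) * ((d + 2).factorial : ℤ)) + 1)) (δ : ℝ) (hδ : 0 < δ) :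
    ∃ C : ℝ, 0 ≤ C ∧ ∀ m n : ℕ, m ≤ n →
      ((b : ℝ) - 1) * cW / (W * c (d + 2)) * ((n : ℝ) - m) - δ * n -
        C * (1 + Real.log ((n : ℝ) + 1)) * (KK b y n : ℝ) ^ (d + 1) ≤
        RS b y (d + 2) n - RS b y (d + 2) m := by
  classical
  have hb2 : (2 : ℝ) ≤ b := by exact_mod_cast hb
  have ha1 : (1 : ℝ) ≤ c (d + 2) := by exact_mod_cast hc
  have hWR : (1 : ℝ) ≤ W := by exact_mod_cast hW0
  have hcW : (0 : ℝ) ≤ cW := Nat.cast_nonneg _
  set a : ℝ := ((c (d + 2) : ℤ) : ℝ) with ha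
  set c' : ℝ := ∑ k ∈ range (d + 2), |(c k : ℝ)| with hc'
  have hc'0 : 0 ≤ c' := sum_nonneg fun _ _ => abs_nonneg _
  have hKK1 : ∀ n, (1 : ℝ) ≤ KK b y n := fun n => by exact_mod_cast KK_pos hy0 hy1 n
  set δ1 : ℝ := δ * a / (((b : ℝ) - 1) * (cW + 1)) with hδ1
  have hb1 : 0 < (b : ℝ) - 1 := by linarith
  have hδ10 : 0 < δ1 := by positivity
  obtain ⟨C, hC, hCn⟩ := dirty_count hFact hb hy0 hy1 halg hirr d c' δ1 hδ10
  set Ct : ℝ := 3 ^ (d + 2) + c' * (3 ^ (d + 1) + 1) + ((b : ℝ) - 1) * cW * C +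
    ((b : ℝ) - 1) * cW with hCt
  refine ⟨Ct, by positivity, fun m n hmn => ?_⟩
  set Kn : ℝ := (KK b y n : ℝ) with hKn
  set R : ℝ := RS b y (d + 2) n - RS b y (d + 2) m with hR
  have hK1 : 1 ≤ Kn := hKK1 n
  have hℓ : 0 ≤ Real.log ((n : ℝ) + 1) := Real.log_nonneg (by
    have : (0 : ℝ) ≤ n := Nat.cast_nonneg _
    linarith)
  set ℓ := Real.log ((n : ℝ) + 1) with hℓdef
  have hn0 : (0 : ℝ) ≤ n := Nat.cast_nonneg _
  have hmn' : (m : ℝ) ≤ n := by exact_mod_cast hmn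
  -- blocks
  set Q : ℕ := (n - m) / W with hQ
  have hWQ : m + W * Q ≤ n := by
    have h0 : W * Q ≤ n - m := Nat.mul_div_le (n - m) W
    omega
  have hQ2 : n - m < W * (Q + 1) := by
    have := Nat.lt_mul_div_succ (n - m) (show 0 < W by omega)
    simpa [hQ, Nat.succ_eq_add_one] using this
  have hQ3 : ((n : ℝ) - m) / W - 1 ≤ Q := by
    have h1 : ((n - m : ℕ) : ℝ) < W * (Q + 1) := by exact_mod_cast hQ2
    rw [Nat.cast_sub hmn] at h1
    have h2 : ((n : ℝ) - m) / W < Q + 1 := by rw [div_lt_iff₀ (by linarith)]; linarith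
    linarith
  have h1 := block_sum2 hb hy0 hy1 d c hP hc W cW hW m Q
  have h2 : ∑ N ∈ Ico m (m + W * Q), (max (ZZ c (d + 2) (xx b y) b N : ℝ) 0 +
      cW * (if Dirty b y d c' N then 1 else 0)) ≤
      ∑ N ∈ Ico m n, (a * TT b y (d + 2) N + c' * TT b y (d + 1) N +
        cW * (if Dirty b y d c' N then 1 else 0)) := by
    have h3 : ∀ N, max (ZZ c (d + 2) (xx b y) b N : ℝ) 0 ≤
        a * TT b y (d + 2) N + c' * TT b y (d + 1) N := by
      intro N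
      apply max_le (ZZ_le hb hy0 hy1 d c hP N)
      have e1 := TT_nonneg hb hy0 hy1 (d + 2) N
      have e2 := TT_nonneg hb hy0 hy1 (d + 1) N
      positivity
    refine (sum_le_sum fun N _ => add_le_add (h3 N) le_rfl).trans ?_
    refine sum_le_sum_of_subset_of_nonneg (Ico_subset_Ico_right hWQ) fun N _ _ => ?_
    have e1 := TT_nonneg hb hy0 hy1 (d + 2) N
    have e2 := TT_nonneg hb hy0 hy1 (d + 1) N
    have e3 : (0 : ℝ) ≤ if Dirty b y d c' N then 1 else 0 := by split_ifs <;> norm_num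
    positivity
  simp only [sum_add_distrib, ← mul_sum] at h1 h2
  have hIR : Ico m n ⊆ range n := by
    intro i hi
    rw [mem_Ico] at hi
    exact mem_range.2 hi.2
  have h3 : (∑ N ∈ Ico m n, (if Dirty b y d c' N then (1 : ℝ) else 0)) ≤
      (((range n).filter (Dirty b y d c')).card : ℝ) := by
    rw [card_filter]; push_cast
    refine sum_le_sum_of_subset_of_nonneg hIR fun N _ _ => ?_
    split_ifs <;> norm_num
  have h3' : ∑ N ∈ Ico m n, TT b y (d + 1) N ≤ ∑ N ∈ range n, TT b y (d + 1) N :=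
    sum_le_sum_of_subset_of_nonneg hIR fun N _ _ => TT_nonneg hb hy0 hy1 (d + 1) N
  have h4 := TT_win hb hy0 hy1 (d + 2) hmn
  have h5 := TT_sum hb hy0 hy1 (d + 1) n
  have h6 := TT_upper hb hy0 hy1 (d + 1) n
  have h7 := TT_upper hb hy0 hy1 d n
  rw [← hR] at h4
  rw [← hKn] at h5 h6 h7
  have hp1 : Kn ^ d ≤ Kn ^ (d + 1) := pow_le_pow_right₀ hK1 (Nat.le_succ d)
  have hKp : 1 ≤ Kn ^ (d + 1) := one_le_pow₀ hK1
  have h8 : ((b : ℝ) - 1) * ∑ N ∈ Ico m n, TT b y (d + 1) N ≤ (3 ^ (d + 1) + 1) * Kn ^ (d + 1) := by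
    have h9 : (3 : ℝ) ^ (d + 1) * Kn ^ d ≤ 3 ^ (d + 1) * Kn ^ (d + 1) :=
      mul_le_mul_of_nonneg_left hp1 (by positivity)
    have h10 := mul_le_mul_of_nonneg_left h3' hb1.le
    linarith
  have h9 : ((b : ℝ) - 1) * ∑ N ∈ Ico m n, TT b y (d + 2) N ≤
      3 ^ (d + 2) * Kn ^ (d + 1) + R := by linarith
  have h10 := h3.trans (hCn n)
  rw [← hKn, ← hℓdef] at h10
  -- combine
  have h11 : ((b : ℝ) - 1) * (cW * (((n : ℝ) - m) / W - 1)) ≤
      a * (3 ^ (d + 2) * Kn ^ (d + 1) + R) + c' * ((3 ^ (d + 1) + 1) * Kn ^ (d + 1)) +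
      ((b : ℝ) - 1) * (cW * (C * (1 + ℓ) * Kn ^ (d + 1) + δ1 * n)) := by
    have e1 : (cW : ℝ) * (((n : ℝ) - m) / W - 1) ≤ cW * Q := mul_le_mul_of_nonneg_left hQ3 hcW
    have e2 := mul_le_mul_of_nonneg_left (e1.trans (h1.trans h2)) hb1.le
    have e3 := mul_le_mul_of_nonneg_left h9 (by linarith : 0 ≤ a)
    have e4 := mul_le_mul_of_nonneg_left h8 hc'0
    have e5 := mul_le_mul_of_nonneg_left (mul_le_mul_of_nonneg_left h10 hcW) hb1.le
    linarith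
  have h12 : ((b : ℝ) - 1) * (cW * (δ1 * n)) ≤ δ * a * n := by
    have e1 : ((b : ℝ) - 1) * (cW * (δ1 * n)) = δ * a * n * (cW / (cW + 1)) := by
      rw [hδ1]; field_simp
    rw [e1]
    have e2 : (cW : ℝ) / (cW + 1) ≤ 1 := by rw [div_le_one (by linarith)]; linarith
    have e3 : 0 ≤ δ * a * n := by positivity
    nlinarith
  have h13 : ((b : ℝ) - 1) * cW / (W * a) * ((n : ℝ) - m) * a = ((b : ℝ) - 1) * (cW * (((n : ℝ) - m) / W)) := by
    field_simp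
  have h14 : c' * ((3 ^ (d + 1) + 1) * Kn ^ (d + 1)) ≤
      a * (c' * (3 ^ (d + 1) + 1) * Kn ^ (d + 1)) := by
    have : 0 ≤ c' * (3 ^ (d + 1) + 1) * Kn ^ (d + 1) := by positivity
    nlinarith
  have h15 : ((b : ℝ) - 1) * (cW * (C * (1 + ℓ) * Kn ^ (d + 1))) ≤
      a * (((b : ℝ) - 1) * cW * C * (1 + ℓ) * Kn ^ (d + 1)) := by
    have : 0 ≤ ((b : ℝ) - 1) * cW * C * (1 + ℓ) * Kn ^ (d + 1) := by positivity
    nlinarith
  have h16 : ((b : ℝ) - 1) * cW ≤ a * (((b : ℝ) - 1) * cW * Kn ^ (d + 1)) := by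
    have e1 : 0 ≤ ((b : ℝ) - 1) * cW := by positivity
    have e2 : ((b : ℝ) - 1) * cW * 1 ≤ ((b : ℝ) - 1) * cW * Kn ^ (d + 1) :=
      mul_le_mul_of_nonneg_left hKp e1
    nlinarith
  have h17 : a * (3 ^ (d + 2) * Kn ^ (d + 1) + c' * (3 ^ (d + 1) + 1) * Kn ^ (d + 1) +
      ((b : ℝ) - 1) * cW * C * (1 + ℓ) * Kn ^ (d + 1) + ((b : ℝ) - 1) * cW * Kn ^ (d + 1)) ≤
      a * (Ct * (1 + ℓ) * Kn ^ (d + 1)) := by
    apply mul_le_mul_of_nonneg_left _ (by linarith)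
    have e1 : Ct * (1 + ℓ) * Kn ^ (d + 1) = (3 ^ (d + 2) * Kn ^ (d + 1) +
      c' * (3 ^ (d + 1) + 1) * Kn ^ (d + 1) + ((b : ℝ) - 1) * cW * Kn ^ (d + 1)) * (1 + ℓ) +
      ((b : ℝ) - 1) * cW * C * (1 + ℓ) * Kn ^ (d + 1) := by rw [hCt]; ring
    rw [e1]
    have e2 : 0 ≤ 3 ^ (d + 2) * Kn ^ (d + 1) + c' * (3 ^ (d + 1) + 1) * Kn ^ (d + 1) +
      ((b : ℝ) - 1) * cW * Kn ^ (d + 1) := by positivity
    nlinarith
  have h18 : (((b : ℝ) - 1) * cW / (W * a) * ((n : ℝ) - m) - δ * n - Ct * (1 + ℓ) * Kn ^ (d + 1)) * a ≤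
      R * a := by
    have e1 : (((b : ℝ) - 1) * cW / (W * a) * ((n : ℝ) - m) - δ * n - Ct * (1 + ℓ) * Kn ^ (d + 1)) * a =
      ((b : ℝ) - 1) * (cW * (((n : ℝ) - m) / W)) - δ * a * n - a * (Ct * (1 + ℓ) * Kn ^ (d + 1)) := by
      rw [sub_mul, sub_mul, h13]; ring
    rw [e1]
    linarith
  exact le_of_mul_le_mul_right h18 (by linarith)

end Pool.Agent.U746.ST
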