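import Pool.Agent.U746.ST.Cub
import Pool.Agent.U746.ST.Low2

set_option autoImplicit false

/-! # All places: the asymptotic argument -/

open Finset Filter

namespace Pool.Agent.U746.ST

open Pool.Agent.H820R3.DG (rr asym)

/-- the factor: `11/10` in even degree, `60/59` in odd degree -/
noncomputable def Kc (D : ℕ) : ℝ := if Even D then 11 / 10 else 60 / 59

lemma Kc_pos (D : ℕ) : 0 < Kc D := by unfold Kc; split_ifs <;> norm_num
lemma Kc_le (D : ℕ) : Kc D ≤ 2 := by unfold Kc; split_ifs <;> norm_num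

/-- the finite inequality, any degree at least two -/
theorem fin_ineq (f : ℕ → ℕ) (hf : f 0 = 1) (D s ℓ : ℕ) (hD : 2 ≤ D) (hs : 1 ≤ s) (hℓ : 1 ≤ ℓ) (c η : ℝ)
    (hc : 0 ≤ c) (hη : 0 ≤ η)
    (hwin : ∀ j < 64 * s, c * ℓ - η ≤ ∑ i ∈ range ℓ, (rr f D (j * ℓ + 1 + i) : ℝ)) :
    Kc D * c * (64 * (s * ℓ)) ≤ ((∑ i ∈ range (64 * (s * ℓ) + 1), f i : ℕ) : ℝ) ^ D +
      2 * (64 * s * η + 1 / s * (c * (64 * (s * ℓ)) +
        ((∑ i ∈ range (64 * (s * ℓ) + 1), f i : ℕ) : ℝ) ^ D)) + 37 * c := by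
  have hs0 : (0 : ℝ) < s := by exact_mod_cast hs
  obtain ⟨F, hF⟩ : ∃ F : ℝ, F = ((∑ i ∈ range (64 * (s * ℓ) + 1), f i : ℕ) : ℝ) := ⟨_, rfl⟩
  have hF0 : 0 ≤ F := by rw [hF]; positivity
  have hFD : 0 ≤ F ^ D := by positivity
  rcases Nat.even_or_odd' D with ⟨k, hk | hk⟩
  · have h1 := even_fin f k s ℓ hs hℓ c η hc hη (by rw [← hk]; exact hwin)
    rw [← hk] at h1
    unfold Kc
    rw [if_pos (by rw [hk]; exact even_two_mul k)]
    exact h1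
  · have hodd : ¬ Even D := by rw [hk]; exact Nat.not_even_two_mul_add_one k
    have h1 : c * (64 * (s * ℓ)) ≤ 59 / 60 * ((∑ i ∈ range (64 * (s * ℓ) + 1), f i : ℕ) : ℝ) ^ D +
      64 * s * η + 1 / (2 * s) * ((∑ i ∈ range (64 * (s * ℓ) + 1), f i : ℕ) : ℝ) ^ D := by
      rcases Nat.lt_or_ge k 2 with h2 | h2
      · have hD3 : D = 3 := by omega
        subst hD3
        exact cub_fin f hf s ℓ hs hℓ c η hwin
      · have := odd_fin f hf k s ℓ h2 hs hℓ c η (by rw [← hk]; exact hwin)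
        rw [← hk] at this
        exact this
    unfold Kc
    rw [if_neg hodd]
    rw [← hF] at h1 ⊢
    have e : (1 : ℝ) / (2 * s) * F ^ D = 1 / 2 * (1 / s * F ^ D) := by field_simp
    rw [e] at h1
    have h3 : 0 ≤ 1 / s * F ^ D := by positivity
    have h4 : 0 ≤ 64 * s * η := by positivity
    have h5 : 0 ≤ 1 / s * (c * (64 * (s * ℓ))) := by positivity
    rw [mul_add (1 / (s : ℝ))]
    have h6 : 0 ≤ c * (64 * ((s : ℝ) * ℓ)) := by positivity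
    nlinarith

/-- all places -/
theorem alln (d : ℕ) (f : ℕ → ℕ) (hf : f 0 = 1) (κ : ℝ) (hκ : 0 ≤ κ)
    (hlow : ∀ δ : ℝ, 0 < δ → ∃ C : ℝ, 0 ≤ C ∧ ∀ m n : ℕ, m ≤ n → κ * ((n : ℝ) - m) - δ * n -
      C * (1 + Real.log ((n : ℝ) + 1)) * ((∑ i ∈ range (n + 1), f i : ℕ) : ℝ) ^ (d + 1) ≤
        (∑ m ∈ range (n + 1), (rr f (d + 2) m : ℝ)) - ∑ m ∈ range (m + 1), (rr f (d + 2) m : ℝ))
    (ε : ℝ) (hε : 0 < ε) :
    ∃ n0 : ℕ, ∀ n : ℕ, n0 ≤ n →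
      (Kc (d + 2) * κ - ε) * n ≤ (((∑ i ∈ range (n + 1), f i : ℕ) : ℝ) - 1) ^ (d + 2) := by
  obtain ⟨Kf, hKf⟩ : ∃ Kf : ℕ → ℝ, Kf = fun n => ((∑ i ∈ range (n + 1), f i : ℕ) : ℝ) := ⟨_, rfl⟩
  have hKf' : ∀ n, ((∑ i ∈ range (n + 1), f i : ℕ) : ℝ) = Kf n := fun n => by rw [hKf]
  have hK1 : ∀ n, 1 ≤ Kf n := by
    intro n
    have h1 : f 0 ≤ ∑ i ∈ range (n + 1), f i :=
      Finset.single_le_sum (fun _ _ => Nat.zero_le _) (mem_range.2 (by omega))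
    rw [hf] at h1
    rw [← hKf']
    exact_mod_cast h1
  have hKm : Monotone Kf := by
    intro m n hmn
    rw [← hKf', ← hKf']
    exact_mod_cast Finset.sum_le_sum_of_subset (range_mono (by omega))
  simp only [hKf'] at hlow ⊢
  refine asym d Kf hK1 (Kc (d + 2) * κ) ?_ ε hε
  intro δ hδ
  obtain ⟨K, hKdef⟩ : ∃ K : ℝ, K = Kc (d + 2) := ⟨_, rfl⟩
  have hK0 : 0 < K := by rw [hKdef]; exact Kc_pos _
  have hK2 : K ≤ 2 := by rw [hKdef]; exact Kc_le _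
  obtain ⟨s, hs⟩ := exists_nat_ge (12 * (κ + 1) / δ + 1)
  have hs1R : (1 : ℝ) ≤ s := by
    have : 0 ≤ 12 * (κ + 1) / δ := by positivity
    linarith
  have hs1 : 1 ≤ s := by exact_mod_cast hs1R
  have hs0 : (0 : ℝ) < s := by linarith
  have hsδ : 12 * (κ + 1) ≤ δ * s := by
    have h1 : 12 * (κ + 1) / δ ≤ s := by linarith
    rw [div_le_iff₀ hδ] at h1
    linarith
  obtain ⟨C, hC0, hC⟩ := hlow (δ / (256 * s)) (by positivity)
  refine ⟨128 * s * C + 37 * κ + 128 * s * κ, by positivity, fun n => ?_⟩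
  rw [← hKdef]
  have hn0 : (0 : ℝ) ≤ n := Nat.cast_nonneg n
  have hlog : 1 ≤ 1 + Real.log ((n : ℝ) + 1) := by
    have := Real.log_nonneg (show (1 : ℝ) ≤ (n : ℝ) + 1 by linarith)
    linarith
  have hKn1 := hK1 n
  have hpow1 : 1 ≤ Kf n ^ (d + 1) := one_le_pow₀ hKn1
  obtain ⟨T, hT⟩ : ∃ T : ℝ, T = (1 + Real.log ((n : ℝ) + 1)) * Kf n ^ (d + 1) := ⟨_, rfl⟩
  have hT1 : 1 ≤ T := by
    rw [hT]
    nlinarith
  have hgoal : (128 * s * C + 37 * κ + 128 * s * κ) * (1 + Real.log ((n : ℝ) + 1)) * Kf n ^ (d + 1) =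
      (128 * s * C + 37 * κ + 128 * s * κ) * T := by rw [hT]; ring
  rw [hgoal]
  have hFD : 0 ≤ Kf n ^ (d + 2) := by positivity
  by_cases hbig : K * κ * n ≤ Kf n ^ (d + 2)
  · have h1 : 0 ≤ δ * n := by positivity
    have h2 : 0 ≤ (128 * s * C + 37 * κ + 128 * s * κ) * T := by positivity
    linarith
  rw [not_le] at hbig
  have hκT : κ ≤ κ * T := le_mul_of_one_le_right hκ hT1
  have hsκ : 0 ≤ (s : ℝ) * κ := by positivity
  have hsκT : (s : ℝ) * κ ≤ s * κ * T := le_mul_of_one_le_right hsκ hT1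
  have hCT : 0 ≤ 128 * s * C * T := by positivity
  obtain ⟨ℓ, hℓ⟩ : ∃ ℓ : ℕ, ℓ = n / (64 * s) := ⟨_, rfl⟩
  have h64 : 0 < 64 * s := by omega
  have hℓ1 : 64 * (s * ℓ) ≤ n := by
    rw [hℓ, ← mul_assoc]
    exact Nat.mul_div_le n (64 * s)
  have hℓ2 : n < 64 * (s * ℓ) + 64 * s := by
    have := Nat.lt_mul_div_succ n h64
    rw [← hℓ] at this
    have e : 64 * s * (ℓ + 1) = 64 * (s * ℓ) + 64 * s := by ring
    omega
  have hℓ1R : 64 * ((s : ℝ) * ℓ) ≤ n := by exact_mod_cast hℓ1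
  have hℓ2R : (n : ℝ) < 64 * (s * ℓ) + 64 * s := by exact_mod_cast hℓ2
  rcases Nat.eq_zero_or_pos ℓ with h0 | hpos
  · rw [h0] at hℓ2R
    simp only [Nat.cast_zero, mul_zero, zero_add] at hℓ2R
    have h1 : K * κ * n ≤ 2 * κ * (64 * s) := by
      apply mul_le_mul _ hℓ2R.le hn0 (by positivity)
      exact mul_le_mul_of_nonneg_right hK2 hκ
    have h2 : 0 ≤ δ * n := by positivity
    have h3 : (128 * s * C + 37 * κ + 128 * s * κ) * T = 128 * s * C * T + 37 * (κ * T) + 128 * (s * κ * T) := by ring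
    rw [h3]
    nlinarith
  -- the windows
  obtain ⟨η, hη⟩ : ∃ η : ℝ, η = δ / (256 * s) * n + C * T := ⟨_, rfl⟩
  have hη0 : 0 ≤ η := by rw [hη]; positivity
  have hwin : ∀ j < 64 * s, κ * ℓ - η ≤ ∑ i ∈ range ℓ, (rr f (d + 2) (j * ℓ + 1 + i) : ℝ) := by
    intro j hj
    have hjn : (j + 1) * ℓ ≤ n := by
      refine le_trans ?_ hℓ1
      rw [← mul_assoc]
      exact Nat.mul_le_mul_right ℓ hj
    have h1 := hC (j * ℓ) ((j + 1) * ℓ) (Nat.mul_le_mul_right ℓ (Nat.le_succ j))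
    have h2 : (∑ m ∈ range ((j + 1) * ℓ + 1), (rr f (d + 2) m : ℝ)) - ∑ m ∈ range (j * ℓ + 1), (rr f (d + 2) m : ℝ) =
        ∑ i ∈ range ℓ, (rr f (d + 2) (j * ℓ + 1 + i) : ℝ) := by
      rw [show (j + 1) * ℓ + 1 = (j * ℓ + 1) + ℓ by ring, Finset.sum_range_add]
      ring
    rw [h2] at h1
    refine le_trans ?_ h1
    have hjnR : (((j + 1) * ℓ : ℕ) : ℝ) ≤ n := by exact_mod_cast hjn
    have e1 : κ * ((((j + 1) * ℓ : ℕ) : ℝ) - ((j * ℓ : ℕ) : ℝ)) = κ * ℓ := by push_cast; ring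
    rw [e1, hη, hT]
    have e2 : δ / (256 * s) * (((j + 1) * ℓ : ℕ) : ℝ) ≤ δ / (256 * s) * n := mul_le_mul_of_nonneg_left hjnR (by positivity)
    have hj0 : (0 : ℝ) ≤ (((j + 1) * ℓ : ℕ) : ℝ) := Nat.cast_nonneg _
    have e3 : 1 + Real.log ((((j + 1) * ℓ : ℕ) : ℝ) + 1) ≤ 1 + Real.log ((n : ℝ) + 1) := by
      have := Real.log_le_log (show (0 : ℝ) < (((j + 1) * ℓ : ℕ) : ℝ) + 1 by linarith)
        (show (((j + 1) * ℓ : ℕ) : ℝ) + 1 ≤ (n : ℝ) + 1 by linarith)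
      linarith
    have e4 : Kf ((j + 1) * ℓ) ^ (d + 1) ≤ Kf n ^ (d + 1) :=
      pow_le_pow_left₀ (by linarith [hK1 ((j + 1) * ℓ)]) (hKm hjn) _
    have e5 : 0 ≤ 1 + Real.log ((((j + 1) * ℓ : ℕ) : ℝ) + 1) := by
      have := Real.log_nonneg (show (1 : ℝ) ≤ (((j + 1) * ℓ : ℕ) : ℝ) + 1 by linarith)
      linarith
    have e6 : C * (1 + Real.log ((((j + 1) * ℓ : ℕ) : ℝ) + 1)) * Kf ((j + 1) * ℓ) ^ (d + 1) ≤
        C * ((1 + Real.log ((n : ℝ) + 1)) * Kf n ^ (d + 1)) := by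
      rw [mul_assoc]
      apply mul_le_mul_of_nonneg_left _ hC0
      exact mul_le_mul e3 e4 (by linarith [hK1 ((j + 1) * ℓ), one_le_pow₀ (n := d + 1) (hK1 ((j + 1) * ℓ))]) (by linarith)
    linarith
  have key := fin_ineq f hf (d + 2) s ℓ (by omega) hs1 hpos κ η hκ hη0 hwin
  rw [← hKdef, hKf'] at key
  have hFm : Kf (64 * (s * ℓ)) ^ (d + 2) ≤ Kf n ^ (d + 2) :=
    pow_le_pow_left₀ (by linarith [hK1 (64 * (s * ℓ))]) (hKm hℓ1) _
  -- error terms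
  have g1 : 2 * (64 * s * η) = δ / 2 * n + 128 * s * C * T := by
    rw [hη]
    field_simp
    ring
  have g2 : (1 : ℝ) / s * (κ * (64 * (s * ℓ)) + Kf (64 * (s * ℓ)) ^ (d + 2)) ≤ δ / 4 * n := by
    have h1 : κ * (64 * (s * ℓ)) + Kf (64 * (s * ℓ)) ^ (d + 2) ≤ 3 * κ * n := by
      have h2 : κ * (64 * ((s : ℝ) * ℓ)) ≤ κ * n := mul_le_mul_of_nonneg_left hℓ1R hκ
      have h3 : K * κ * n ≤ 2 * κ * n := by
        apply mul_le_mul_of_nonneg_right _ hn0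
        exact mul_le_mul_of_nonneg_right hK2 hκ
      linarith
    rw [one_div, inv_mul_le_iff₀ hs0]
    have h4 : 3 * κ * n ≤ s * (δ / 4 * n) := by
      have h5 : 12 * (κ + 1) * n ≤ δ * s * n := mul_le_mul_of_nonneg_right hsδ hn0
      nlinarith
    linarith
  have g3 : K * κ * n ≤ K * κ * (64 * (s * ℓ)) + 128 * s * κ := by
    have h1 : K * κ * n ≤ K * κ * (64 * (s * ℓ) + 64 * s) := mul_le_mul_of_nonneg_left hℓ2R.le (by positivity)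
    have h2 : K * (64 * (s * κ)) ≤ 2 * (64 * (s * κ)) := mul_le_mul_of_nonneg_right hK2 (by positivity)
    nlinarith
  have h3 : (128 * s * C + 37 * κ + 128 * s * κ) * T = 128 * s * C * T + 37 * (κ * T) + 128 * (s * κ * T) := by ring
  rw [h3]
  nlinarith

end Pool.Agent.U746.ST
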