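import Pool.Agent.U746.ST.Odd

set_option autoImplicit false

/-! # Degree three -/

open Finset Polynomial

namespace Pool.Agent.U746.ST

open Pool.Agent.H820R3.DG (rr)
open Pool.Agent.U278.SD

/-- the mass of the triples of large places -/
lemma cube_big (f : ℕ → ℕ) (N T : ℕ) (hT : T ≤ N + 1) (hT3 : N < 3 * T) :
    ∑ m ∈ range (N + 1), (rr f 3 m : ℝ) ≤
      ((∑ i ∈ range (N + 1), f i : ℕ) : ℝ) ^ 3 -
        (((∑ i ∈ range (N + 1), f i : ℕ) : ℝ) - ((∑ i ∈ range T, f i : ℕ) : ℝ)) ^ 3 := by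
  obtain ⟨p, hp⟩ : ∃ p : ℝ[X], p = pol f N := ⟨_, rfl⟩
  obtain ⟨ps, hps⟩ : ∃ ps : ℝ[X], ps = ∑ i ∈ range T, monomial i (f i : ℝ) := ⟨_, rfl⟩
  obtain ⟨pb, hpb⟩ : ∃ pb : ℝ[X], pb = ∑ i ∈ Ico T (N + 1), monomial i (f i : ℝ) := ⟨_, rfl⟩
  have hsplit : p = ps + pb := by
    rw [hp, hps, hpb]
    unfold pol
    rw [Finset.sum_range_add_sum_Ico _ hT]
  have mono_nonneg : ∀ (S : Finset ℕ) (m : ℕ), 0 ≤ (∑ i ∈ S, monomial i (f i : ℝ)).coeff m := by
    intro S m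
    rw [finset_sum_coeff]
    refine Finset.sum_nonneg fun i _ => ?_
    rw [coeff_monomial]
    split_ifs <;> positivity
  have hp0 : ∀ m, 0 ≤ p.coeff m := by rw [hp]; exact pol_nonneg f N
  have hps0 : ∀ m, 0 ≤ ps.coeff m := by rw [hps]; exact mono_nonneg _
  have hpb0 : ∀ m, 0 ≤ pb.coeff m := by rw [hpb]; exact mono_nonneg _
  obtain ⟨q, hq⟩ : ∃ q : ℝ[X], q = ps * (p ^ 2 + p * pb + pb ^ 2) := ⟨_, rfl⟩
  have hq0 : ∀ m, 0 ≤ q.coeff m := by
    rw [hq]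
    apply mul_coeff_nonneg hps0
    intro m
    rw [coeff_add, coeff_add]
    have h1 := pow_coeff_nonneg hp0 2 m
    have h2 := mul_coeff_nonneg hp0 hpb0 m
    have h3 := pow_coeff_nonneg hpb0 2 m
    linarith
  have hpq : p ^ 3 = q + pb ^ 3 := by rw [hq, hsplit]; ring
  have hdiv : (X : ℝ[X]) ^ T ∣ pb := by
    rw [hpb]
    refine Finset.dvd_sum fun i hi => ?_
    rw [mem_Ico] at hi
    rw [← C_mul_X_pow_eq_monomial]
    exact Dvd.dvd.mul_left (pow_dvd_pow X hi.1) _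
  have hzero : ∀ m ≤ N, (pb ^ 3).coeff m = 0 := by
    intro m hm
    have h1 : (X : ℝ[X]) ^ (3 * T) ∣ pb ^ 3 := by
      rw [mul_comm, pow_mul]
      exact pow_dvd_pow_of_dvd hdiv 3
    rw [X_pow_dvd_iff] at h1
    exact h1 m (by omega)
  have h1 : ∑ m ∈ range (N + 1), (rr f 3 m : ℝ) = ∑ m ∈ range (N + 1), q.coeff m := by
    refine Finset.sum_congr rfl fun m hm => ?_
    have hm' : m ≤ N := by have := mem_range.1 hm; omega
    rw [← pol_pow_coeff f N 3 m hm', ← hp, hpq, coeff_add, hzero m hm', add_zero]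
  rw [h1]
  refine (sum_coeff_le hq0 _).trans (le_of_eq ?_)
  have e1 : q.eval 1 = p.eval 1 ^ 3 - pb.eval 1 ^ 3 := by
    have := congrArg (eval 1) hpq
    rw [eval_pow, eval_add, eval_pow] at this
    linarith
  have e2 : p.eval 1 = ((∑ i ∈ range (N + 1), f i : ℕ) : ℝ) := by rw [hp, pol_eval]
  have e3 : ps.eval 1 = ((∑ i ∈ range T, f i : ℕ) : ℝ) := by
    rw [hps, eval_finset_sum]
    push_cast
    refine Finset.sum_congr rfl fun i _ => ?_
    simp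
  have e4 : pb.eval 1 = p.eval 1 - ps.eval 1 := by rw [hsplit, eval_add]; ring
  rw [e1, e4, e2, e3]

/-- the test function -/
lemma tau3_ge (α : ℝ) : -(357 / 100) ≤ 4 * Real.cos (α - Real.pi / 3) + Real.cos (3 * α) ∧
    (1 / 2 ≤ Real.cos (α - Real.pi / 3) → 3 ≤ 4 * Real.cos (α - Real.pi / 3) + Real.cos (3 * α)) := by
  obtain ⟨u, hu⟩ : ∃ u : ℝ, u = α - Real.pi / 3 := ⟨_, rfl⟩
  have hα : 3 * α = 3 * u + Real.pi := by rw [hu]; ring
  rw [hα, Real.cos_add_pi, Real.cos_three_mul, ← hu]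
  obtain ⟨v, hv⟩ : ∃ v : ℝ, v = Real.cos u := ⟨_, rfl⟩
  have hv1 : v ≤ 1 := by rw [hv]; exact Real.cos_le_one u
  have hv2 : -1 ≤ v := by rw [hv]; exact Real.neg_one_le_cos u
  rw [← hv]
  constructor
  · nlinarith [mul_nonneg (sq_nonneg (v + 7638 / 10000)) (show 0 ≤ 2 * (7638 / 10000) - v by linarith)]
  · intro h
    nlinarith [mul_nonneg (mul_nonneg (sub_nonneg.2 hv1) (show 0 ≤ 2 * v - 1 by linarith)) (show 0 ≤ 2 * v + 3 by linarith)]

/-- the inequality of the test function -/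
lemma test3 (f : ℕ → ℕ) (L : ℕ) (hL : 0 < L) :
    3 * ((∑ i ∈ range (64 * L / 3 + 1), f i : ℕ) : ℝ) -
      357 / 100 * (((∑ i ∈ range (64 * L + 1), f i : ℕ) : ℝ) - ((∑ i ∈ range (64 * L / 3 + 1), f i : ℕ) : ℝ)) ≤
    4 * ‖aeval (Complex.exp (Complex.I * (fq L 0 : ℂ))) (pol f (64 * L))‖ +
      ‖aeval (Complex.exp (Complex.I * (fq L 2 : ℂ))) (pol f (64 * L))‖ := by
  have hLR : (0 : ℝ) < L := by exact_mod_cast hL
  have hpi := Real.pi_pos
  have hTN : 64 * L / 3 + 1 ≤ 64 * L + 1 := by omega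
  have hev : ∀ w : ℂ, aeval w (pol f (64 * L)) = ∑ i ∈ range (64 * L + 1), (f i : ℂ) * w ^ i := by
    intro w
    unfold pol
    rw [map_sum]
    refine Finset.sum_congr rfl fun i _ => ?_
    rw [aeval_monomial]
    simp
  have h0 : ‖Complex.exp (((-(Real.pi / 3) : ℝ) : ℂ) * Complex.I) *
      aeval (Complex.exp (Complex.I * (fq L 0 : ℂ))) (pol f (64 * L))‖ =
      ‖aeval (Complex.exp (Complex.I * (fq L 0 : ℂ))) (pol f (64 * L))‖ := by
    rw [norm_mul, Complex.norm_exp_ofReal_mul_I, one_mul]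
  have r0 : (Complex.exp (((-(Real.pi / 3) : ℝ) : ℂ) * Complex.I) *
      aeval (Complex.exp (Complex.I * (fq L 0 : ℂ))) (pol f (64 * L))).re =
      ∑ i ∈ range (64 * L + 1), (f i : ℝ) * Real.cos (fq L 0 * i - Real.pi / 3) := by
    rw [hev, Finset.mul_sum, Complex.re_sum]
    refine Finset.sum_congr rfl fun i _ => ?_
    have e : Complex.exp (((-(Real.pi / 3) : ℝ) : ℂ) * Complex.I) * ((f i : ℂ) *
        Complex.exp (Complex.I * (fq L 0 : ℂ)) ^ i) =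
        ((f i : ℝ) : ℂ) * Complex.exp (((fq L 0 * i - Real.pi / 3 : ℝ) : ℂ) * Complex.I) := by
      rw [← Complex.exp_nat_mul, mul_left_comm, ← Complex.exp_add]
      push_cast
      congr 2
      ring
    rw [e, Complex.re_ofReal_mul, Complex.exp_ofReal_mul_I_re]
  have r2 : (aeval (Complex.exp (Complex.I * (fq L 2 : ℂ))) (pol f (64 * L))).re =
      ∑ i ∈ range (64 * L + 1), (f i : ℝ) * Real.cos (3 * (fq L 0 * i)) := by
    rw [hev, Complex.re_sum]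
    refine Finset.sum_congr rfl fun i _ => ?_
    have e : (f i : ℂ) * Complex.exp (Complex.I * (fq L 2 : ℂ)) ^ i =
        ((f i : ℝ) : ℂ) * Complex.exp (((3 * (fq L 0 * i) : ℝ) : ℂ) * Complex.I) := by
      rw [← Complex.exp_nat_mul]
      push_cast
      congr 2
      unfold fq
      push_cast
      ring
    rw [e, Complex.re_ofReal_mul, Complex.exp_ofReal_mul_I_re]
  have b0 := (abs_le.1 (Complex.abs_re_le_norm (Complex.exp (((-(Real.pi / 3) : ℝ) : ℂ) * Complex.I) *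
      aeval (Complex.exp (Complex.I * (fq L 0 : ℂ))) (pol f (64 * L))))).2
  have b2 := (abs_le.1 (Complex.abs_re_le_norm
    (aeval (Complex.exp (Complex.I * (fq L 2 : ℂ))) (pol f (64 * L))))).2
  rw [h0, r0] at b0
  rw [r2] at b2
  have key : ∑ i ∈ range (64 * L + 1), (f i : ℝ) * (4 * Real.cos (fq L 0 * i - Real.pi / 3) +
      Real.cos (3 * (fq L 0 * i))) = 4 * ∑ i ∈ range (64 * L + 1), (f i : ℝ) * Real.cos (fq L 0 * i - Real.pi / 3) +
      ∑ i ∈ range (64 * L + 1), (f i : ℝ) * Real.cos (3 * (fq L 0 * i)) := by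
    rw [Finset.mul_sum, ← Finset.sum_add_distrib]
    exact Finset.sum_congr rfl fun m _ => by ring
  have low : 3 * ∑ i ∈ range (64 * L / 3 + 1), (f i : ℝ) - 357 / 100 * ∑ i ∈ Ico (64 * L / 3 + 1) (64 * L + 1), (f i : ℝ) ≤
      ∑ i ∈ range (64 * L + 1), (f i : ℝ) * (4 * Real.cos (fq L 0 * i - Real.pi / 3) +
      Real.cos (3 * (fq L 0 * i))) := by
    rw [← Finset.sum_range_add_sum_Ico (fun i => (f i : ℝ) * (4 * Real.cos (fq L 0 * i - Real.pi / 3) +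
      Real.cos (3 * (fq L 0 * i)))) hTN]
    have l1 : 3 * ∑ i ∈ range (64 * L / 3 + 1), (f i : ℝ) ≤ ∑ i ∈ range (64 * L / 3 + 1), (f i : ℝ) *
        (4 * Real.cos (fq L 0 * i - Real.pi / 3) + Real.cos (3 * (fq L 0 * i))) := by
      rw [Finset.mul_sum]
      refine Finset.sum_le_sum fun i hi => ?_
      rw [mul_comm 3]
      apply mul_le_mul_of_nonneg_left _ (Nat.cast_nonneg _)
      apply (tau3_ge _).2
      have hi' : 3 * i ≤ 64 * L := by have := mem_range.1 hi; omega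
      have hiR : 3 * (i : ℝ) ≤ 64 * L := by exact_mod_cast hi'
      have e : fq L 0 * i = 2 * Real.pi / 3 * (3 * i / (64 * L)) := by
        unfold fq
        push_cast
        field_simp
        ring
      have h10 : 3 * (i : ℝ) / (64 * L) ≤ 1 := by rw [div_le_one (by positivity)]; exact hiR
      have h11 : 0 ≤ 3 * (i : ℝ) / (64 * L) := by positivity
      have h12 : fq L 0 * i ≤ 2 * Real.pi / 3 := by rw [e]; nlinarith
      have h13 : 0 ≤ fq L 0 * i := by rw [e]; positivity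
      rw [← Real.cos_abs, ← Real.cos_pi_div_three]
      apply Real.cos_le_cos_of_nonneg_of_le_pi (abs_nonneg _) (by linarith)
      rw [abs_le]
      constructor <;> linarith
    have l2 : -(357 / 100 * ∑ i ∈ Ico (64 * L / 3 + 1) (64 * L + 1), (f i : ℝ)) ≤
        ∑ i ∈ Ico (64 * L / 3 + 1) (64 * L + 1), (f i : ℝ) *
        (4 * Real.cos (fq L 0 * i - Real.pi / 3) + Real.cos (3 * (fq L 0 * i))) := by
      rw [Finset.mul_sum, ← Finset.sum_neg_distrib]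
      refine Finset.sum_le_sum fun i _ => ?_
      have h1 := mul_le_mul_of_nonneg_left (tau3_ge (fq L 0 * i)).1 (Nat.cast_nonneg (f i) : (0 : ℝ) ≤ (f i : ℝ))
      linarith
    linarith
  rw [key] at low
  push_cast
  rw [← Finset.sum_range_add_sum_Ico (fun i => (f i : ℝ)) hTN]
  have : ∑ i ∈ range (64 * L / 3 + 1), (f i : ℝ) + ∑ i ∈ Ico (64 * L / 3 + 1) (64 * L + 1), (f i : ℝ) -
      ∑ i ∈ range (64 * L / 3 + 1), (f i : ℝ) = ∑ i ∈ Ico (64 * L / 3 + 1) (64 * L + 1), (f i : ℝ) := by ring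
  rw [this]
  linarith

/-- the finite inequality for degree three -/
theorem cub_fin (f : ℕ → ℕ) (hf : f 0 = 1) (s ℓ : ℕ) (hs : 1 ≤ s) (hℓ : 1 ≤ ℓ) (c η : ℝ)
    (hwin : ∀ j < 64 * s, c * ℓ - η ≤ ∑ i ∈ range ℓ, (rr f 3 (j * ℓ + 1 + i) : ℝ)) :
    c * (64 * (s * ℓ)) ≤ 59 / 60 * ((∑ i ∈ range (64 * (s * ℓ) + 1), f i : ℕ) : ℝ) ^ 3 +
      64 * s * η + 1 / (2 * s) * ((∑ i ∈ range (64 * (s * ℓ) + 1), f i : ℕ) : ℝ) ^ 3 := by
  by_contra hcon
  rw [not_le] at hcon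
  have hL : 0 < s * ℓ := Nat.mul_pos hs hℓ
  have hA := fun h hh => A_bound f 3 s ℓ h hs hℓ hh c η hwin
  have hR := R_lower f 3 s ℓ c η hwin
  have hP := cube_big f (64 * (s * ℓ)) (64 * (s * ℓ) / 3 + 1) (by omega) (by omega)
  have hT := test3 f (s * ℓ) hL
  obtain ⟨F, hF⟩ : ∃ F : ℝ, F = ((∑ i ∈ range (64 * (s * ℓ) + 1), f i : ℕ) : ℝ) := ⟨_, rfl⟩
  have hF1 : 1 ≤ F := by
    rw [hF]
    have h1 : f 0 ≤ ∑ i ∈ range (64 * (s * ℓ) + 1), f i :=
      Finset.single_le_sum (fun _ _ => Nat.zero_le _) (mem_range.2 (by omega))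
    rw [hf] at h1
    exact_mod_cast h1
  rw [← hF] at hcon hP hT
  simp only [← hF] at hA
  have hF0 : 0 < F := by linarith
  obtain ⟨Sg, hSg⟩ : ∃ Sg : ℝ, Sg = ((∑ i ∈ range (64 * (s * ℓ) / 3 + 1), f i : ℕ) : ℝ) := ⟨_, rfl⟩
  rw [← hSg] at hP hT
  have hs0 : (0 : ℝ) < s := by exact_mod_cast hs
  have hmisc : 0 ≤ 1 / (2 * (s : ℝ)) * F ^ 3 := by positivity
  have hcube : ∀ x : ℝ, x ^ 3 ≤ F ^ 3 / 60 → x ≤ 2555 / 10000 * F := by
    intro x hx
    by_contra hc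
    rw [not_le] at hc
    have := pow_lt_pow_left₀ hc (by positivity) (show 3 ≠ 0 by norm_num)
    have hF3 : 0 < F ^ 3 := by positivity
    nlinarith
  have hA0 := hA 0 (by norm_num)
  have hA2 := hA 2 (by norm_num)
  have h0 := hcube (‖aeval (Complex.exp (Complex.I * (fq (s * ℓ) 0 : ℂ))) (pol f (64 * (s * ℓ)))‖) (by linarith)
  have h2 := hcube (‖aeval (Complex.exp (Complex.I * (fq (s * ℓ) 2 : ℂ))) (pol f (64 * (s * ℓ)))‖) (by linarith)
  have h3 := hcube (F - Sg) (by linarith)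
  linarith

end Pool.Agent.U746.ST
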