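import Mathlib

set_option autoImplicit false

/-! # Exponential sums of a sequence with large mass in all windows -/

open Finset

namespace Pool.Agent.U746.ST

/-- blocks -/
lemma block_split {M : Type*} [AddCommMonoid M] (F : ℕ → M) (J ℓ : ℕ) :
    ∑ m ∈ range (J * ℓ + 1), F m = F 0 + ∑ j ∈ range J, ∑ i ∈ range ℓ, F (j * ℓ + 1 + i) := by
  induction J with
  | zero => simp
  | succ J ih =>
    rw [Finset.sum_range_succ (fun j => ∑ i ∈ range ℓ, F (j * ℓ + 1 + i)), ← add_assoc, ← ih,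
      show (J + 1) * ℓ + 1 = (J * ℓ + 1) + ℓ by ring, Finset.sum_range_add]

lemma block_trig (r : ℕ → ℝ) (hr : ∀ m, 0 ≤ r m) (J ℓ : ℕ) (c η θ : ℝ) (w : ℂ) (hw : ‖w‖ = 1)
    (hwJ : (w ^ ℓ) ^ J = 1) (hw1 : w ^ ℓ ≠ 1) (hθ : ∀ i ≤ ℓ, ‖w ^ i - 1‖ ≤ θ)
    (hwin : ∀ j < J, c * ℓ - η ≤ ∑ i ∈ range ℓ, r (j * ℓ + 1 + i)) :
    ‖∑ m ∈ range (J * ℓ + 1), (r m : ℂ) * w ^ m‖ ≤
      (∑ m ∈ range (J * ℓ + 1), r m) - c * (J * ℓ) + J * η + θ * ∑ m ∈ range (J * ℓ + 1), r m := by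
  have hθ0 : 0 ≤ θ := (norm_nonneg _).trans (hθ 0 (Nat.zero_le _))
  rw [block_split (fun m => (r m : ℂ) * w ^ m), block_split r]
  have hgeo : ∑ j ∈ range J, (w ^ ℓ) ^ j = 0 := by
    have h1 := mul_neg_geom_sum (w ^ ℓ) J
    rw [hwJ, sub_self] at h1
    rcases mul_eq_zero.1 h1 with h2 | h2
    · exact absurd (sub_eq_zero.1 h2).symm hw1
    · exact h2
  have h1 : ∑ j ∈ range J, ∑ i ∈ range ℓ, (r (j * ℓ + 1 + i) : ℂ) * w ^ (j * ℓ + 1 + i) =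
      ∑ j ∈ range J, ((∑ i ∈ range ℓ, r (j * ℓ + 1 + i) - (c * ℓ - η) : ℝ) : ℂ) * (w ^ ℓ) ^ j +
      ∑ j ∈ range J, ∑ i ∈ range ℓ, (r (j * ℓ + 1 + i) : ℂ) * ((w ^ ℓ) ^ j * (w ^ (1 + i) - 1)) := by
    have h2 : ∑ j ∈ range J, ((∑ i ∈ range ℓ, r (j * ℓ + 1 + i) - (c * ℓ - η) : ℝ) : ℂ) * (w ^ ℓ) ^ j =
        ∑ j ∈ range J, ∑ i ∈ range ℓ, (r (j * ℓ + 1 + i) : ℂ) * (w ^ ℓ) ^ j := by
      have h3 : ∀ j ∈ range J, ((∑ i ∈ range ℓ, r (j * ℓ + 1 + i) - (c * ℓ - η) : ℝ) : ℂ) * (w ^ ℓ) ^ j =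
          (∑ i ∈ range ℓ, (r (j * ℓ + 1 + i) : ℂ) * (w ^ ℓ) ^ j) - ((c * ℓ - η : ℝ) : ℂ) * (w ^ ℓ) ^ j := by
        intro j _
        rw [Complex.ofReal_sub, sub_mul, Complex.ofReal_sum, Finset.sum_mul]
      rw [Finset.sum_congr rfl h3, Finset.sum_sub_distrib, ← Finset.mul_sum, hgeo, mul_zero, sub_zero]
    rw [h2, ← Finset.sum_add_distrib]
    refine Finset.sum_congr rfl fun j _ => ?_
    rw [← Finset.sum_add_distrib]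
    refine Finset.sum_congr rfl fun i _ => ?_
    have e : w ^ (j * ℓ + 1 + i) = (w ^ ℓ) ^ j * w ^ (1 + i) := by
      rw [← pow_mul, ← pow_add]
      congr 1
      ring
    rw [e]
    ring
  rw [h1, pow_zero, mul_one]
  have n0 : ‖(r 0 : ℂ)‖ = r 0 := by rw [Complex.norm_real, Real.norm_of_nonneg (hr 0)]
  have hwl : ∀ j, ‖(w ^ ℓ) ^ j‖ = 1 := fun j => by rw [norm_pow, norm_pow, hw, one_pow, one_pow]
  have n1 : ‖∑ j ∈ range J, ((∑ i ∈ range ℓ, r (j * ℓ + 1 + i) - (c * ℓ - η) : ℝ) : ℂ) * (w ^ ℓ) ^ j‖ ≤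
      ∑ j ∈ range J, ∑ i ∈ range ℓ, r (j * ℓ + 1 + i) - c * (J * ℓ) + J * η := by
    refine (norm_sum_le _ _).trans ?_
    have h2 : ∀ j ∈ range J, ‖((∑ i ∈ range ℓ, r (j * ℓ + 1 + i) - (c * ℓ - η) : ℝ) : ℂ) * (w ^ ℓ) ^ j‖ =
        ∑ i ∈ range ℓ, r (j * ℓ + 1 + i) - (c * ℓ - η) := by
      intro j hj
      rw [norm_mul, hwl, mul_one, Complex.norm_real, Real.norm_of_nonneg]
      have := hwin j (mem_range.1 hj)
      linarith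
    rw [Finset.sum_congr rfl h2, Finset.sum_sub_distrib, Finset.sum_const, card_range, nsmul_eq_mul]
    linarith
  have n2 : ‖∑ j ∈ range J, ∑ i ∈ range ℓ, (r (j * ℓ + 1 + i) : ℂ) * ((w ^ ℓ) ^ j * (w ^ (1 + i) - 1))‖ ≤
      θ * ∑ j ∈ range J, ∑ i ∈ range ℓ, r (j * ℓ + 1 + i) := by
    refine (norm_sum_le _ _).trans ?_
    rw [Finset.mul_sum]
    refine Finset.sum_le_sum fun j _ => ?_
    refine (norm_sum_le _ _).trans ?_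
    rw [Finset.mul_sum]
    refine Finset.sum_le_sum fun i hi => ?_
    have hi' := mem_range.1 hi
    rw [norm_mul, norm_mul, hwl, one_mul, Complex.norm_real, Real.norm_of_nonneg (hr _), mul_comm θ]
    exact mul_le_mul_of_nonneg_left (hθ (1 + i) (by omega)) (hr _)
  have h0 : 0 ≤ θ * r 0 := mul_nonneg hθ0 (hr 0)
  calc ‖(r 0 : ℂ) + (∑ j ∈ range J, ((∑ i ∈ range ℓ, r (j * ℓ + 1 + i) - (c * ℓ - η) : ℝ) : ℂ) * (w ^ ℓ) ^ j +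
        ∑ j ∈ range J, ∑ i ∈ range ℓ, (r (j * ℓ + 1 + i) : ℂ) * ((w ^ ℓ) ^ j * (w ^ (1 + i) - 1)))‖
      ≤ r 0 + (_ + _) := (norm_add_le _ _).trans (add_le_add n0.le ((norm_add_le _ _).trans (add_le_add n1 n2)))
    _ ≤ _ := by rw [mul_add]; linarith

/-- weights which vary little in the blocks -/
lemma block_wt (r φ : ℕ → ℝ) (hr : ∀ m, 0 ≤ r m) (J ℓ : ℕ) (c η ρ : ℝ) (hc : 0 ≤ c) (hη : 0 ≤ η)
    (hρ : 0 ≤ ρ) (hφ0 : ∀ m ≤ J * ℓ, 0 ≤ φ m) (hφ1 : ∀ m ≤ J * ℓ, φ m ≤ 1)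
    (hφ : ∀ j < J, ∀ i < ℓ, |φ (j * ℓ + 1 + i) - φ (j * ℓ)| ≤ ρ)
    (hwin : ∀ j < J, c * ℓ - η ≤ ∑ i ∈ range ℓ, r (j * ℓ + 1 + i)) :
    c * (∑ z ∈ range (J * ℓ), φ (z + 1)) - c * ρ * (J * ℓ) - J * η - ρ * ∑ m ∈ range (J * ℓ + 1), r m ≤
      ∑ m ∈ range (J * ℓ + 1), r m * φ m := by
  rw [block_split (fun m => r m * φ m), block_split r]
  have hsp : ∑ z ∈ range (J * ℓ), φ (z + 1) = ∑ j ∈ range J, ∑ i ∈ range ℓ, φ (j * ℓ + 1 + i) := by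
    have h1 := block_split φ J ℓ
    rw [Finset.sum_range_succ' φ (J * ℓ)] at h1
    linarith
  rw [hsp]
  have h0 : 0 ≤ r 0 * φ 0 := mul_nonneg (hr 0) (hφ0 0 (Nat.zero_le _))
  have h00 : 0 ≤ ρ * r 0 := mul_nonneg hρ (hr 0)
  have key : ∀ j ∈ range J, c * (∑ i ∈ range ℓ, φ (j * ℓ + 1 + i)) - c * ρ * ℓ - η -
      ρ * ∑ i ∈ range ℓ, r (j * ℓ + 1 + i) ≤ ∑ i ∈ range ℓ, r (j * ℓ + 1 + i) * φ (j * ℓ + 1 + i) := by
    intro j hj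
    have hj' := mem_range.1 hj
    have hjl : j * ℓ ≤ J * ℓ := Nat.mul_le_mul_right ℓ hj'.le
    have k0 := hφ0 _ hjl
    have k1 := hφ1 _ hjl
    have h1 : φ (j * ℓ) * ∑ i ∈ range ℓ, r (j * ℓ + 1 + i) - ρ * ∑ i ∈ range ℓ, r (j * ℓ + 1 + i) ≤
        ∑ i ∈ range ℓ, r (j * ℓ + 1 + i) * φ (j * ℓ + 1 + i) := by
      rw [Finset.mul_sum, Finset.mul_sum, ← Finset.sum_sub_distrib]
      refine Finset.sum_le_sum fun i hi => ?_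
      have h2 := (abs_le.1 (hφ j hj' i (mem_range.1 hi))).1
      have h3 := hr (j * ℓ + 1 + i)
      nlinarith
    have h2 : φ (j * ℓ) * (c * ℓ - η) ≤ φ (j * ℓ) * ∑ i ∈ range ℓ, r (j * ℓ + 1 + i) :=
      mul_le_mul_of_nonneg_left (hwin j hj') k0
    have h3 : ∑ i ∈ range ℓ, φ (j * ℓ + 1 + i) ≤ ℓ * (φ (j * ℓ) + ρ) := by
      have h4 : ∀ i ∈ range ℓ, φ (j * ℓ + 1 + i) ≤ φ (j * ℓ) + ρ := by
        intro i hi
        have h2 := (abs_le.1 (hφ j hj' i (mem_range.1 hi))).2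
        linarith
      refine (Finset.sum_le_sum h4).trans (le_of_eq ?_)
      rw [Finset.sum_const, card_range, nsmul_eq_mul]
    have h4 := mul_le_mul_of_nonneg_left h3 hc
    have h5 : φ (j * ℓ) * η ≤ η := by nlinarith
    nlinarith
  have hsum := Finset.sum_le_sum key
  rw [Finset.sum_sub_distrib, Finset.sum_sub_distrib, Finset.sum_sub_distrib,
    Finset.sum_const, Finset.sum_const, card_range, nsmul_eq_mul, nsmul_eq_mul] at hsum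
  have e1 : ∑ j ∈ range J, c * ∑ i ∈ range ℓ, φ (j * ℓ + 1 + i) =
      c * ∑ j ∈ range J, ∑ i ∈ range ℓ, φ (j * ℓ + 1 + i) := (Finset.mul_sum _ _ _).symm
  have e2 : ∑ j ∈ range J, ρ * ∑ i ∈ range ℓ, r (j * ℓ + 1 + i) =
      ρ * ∑ j ∈ range J, ∑ i ∈ range ℓ, r (j * ℓ + 1 + i) := (Finset.mul_sum _ _ _).symm
  rw [e1, e2] at hsum
  rw [mul_add]
  linarith

end Pool.Agent.U746.ST
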