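import Pool.Agent.H820R3.DG.Defs2

set_option autoImplicit false

/-! # Representation numbers and powers of a polynomial -/

open Finset Polynomial

namespace Pool.Agent.U746.ST

open Pool.Agent.H820R3.DG (rr)

/-- the polynomial with the first coefficients of `f` -/
noncomputable def pol (f : ℕ → ℕ) (N : ℕ) : ℝ[X] := ∑ i ∈ range (N + 1), monomial i (f i : ℝ)

lemma pol_coeff (f : ℕ → ℕ) (N m : ℕ) : (pol f N).coeff m = if m ≤ N then (f m : ℝ) else 0 := by
  unfold pol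
  rw [finset_sum_coeff]
  simp only [coeff_monomial]
  rw [Finset.sum_ite_eq' (range (N + 1)) m]
  simp [Nat.lt_succ_iff]

lemma pol_pow_coeff (f : ℕ → ℕ) (N k : ℕ) : ∀ m ≤ N, ((pol f N) ^ k).coeff m = (rr f k m : ℝ) := by
  induction k with
  | zero =>
    intro m _
    rw [pow_zero, coeff_one]
    unfold rr
    split_ifs <;> simp
  | succ k ih =>
    intro m hm
    rw [pow_succ', coeff_mul]
    have h1 : rr f (k + 1) m = ∑ p ∈ antidiagonal m, f p.1 * rr f k p.2 := rfl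
    rw [h1]
    push_cast
    refine Finset.sum_congr rfl fun p hp => ?_
    rw [HasAntidiagonal.mem_antidiagonal] at hp
    rw [pol_coeff, if_pos (by omega), ih p.2 (by omega)]

lemma pow_coeff_nonneg {p : ℝ[X]} (hp : ∀ m, 0 ≤ p.coeff m) (k : ℕ) : ∀ m, 0 ≤ (p ^ k).coeff m := by
  induction k with
  | zero =>
    intro m
    rw [pow_zero, coeff_one]
    split_ifs <;> norm_num
  | succ k ih =>
    intro m
    rw [pow_succ', coeff_mul]
    exact Finset.sum_nonneg fun x _ => mul_nonneg (hp _) (ih _)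

lemma mul_coeff_nonneg {p q : ℝ[X]} (hp : ∀ m, 0 ≤ p.coeff m) (hq : ∀ m, 0 ≤ q.coeff m) :
    ∀ m, 0 ≤ (p * q).coeff m := by
  intro m
  rw [coeff_mul]
  exact Finset.sum_nonneg fun x _ => mul_nonneg (hp _) (hq _)

lemma pol_nonneg (f : ℕ → ℕ) (N : ℕ) : ∀ m, 0 ≤ (pol f N).coeff m := by
  intro m
  rw [pol_coeff]
  split_ifs <;> positivity

/-- the total mass bounds partial sums of the coefficients -/
lemma sum_coeff_le {p : ℝ[X]} (hp : ∀ m, 0 ≤ p.coeff m) (n : ℕ) : ∑ m ∈ range n, p.coeff m ≤ p.eval 1 := by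
  have h1 : p.eval 1 = ∑ m ∈ range (max n (p.natDegree + 1)), p.coeff m := by
    rw [eval_eq_sum_range' (lt_of_lt_of_le (Nat.lt_succ_self _) (le_max_right n (p.natDegree + 1)))]
    simp
  rw [h1]
  exact Finset.sum_le_sum_of_subset_of_nonneg (range_mono (le_max_left _ _)) fun m _ _ => hp m

lemma pol_eval (f : ℕ → ℕ) (N : ℕ) : (pol f N).eval 1 = ((∑ i ∈ range (N + 1), f i : ℕ) : ℝ) := by
  unfold pol
  rw [eval_finset_sum]
  push_cast
  refine Finset.sum_congr rfl fun i _ => ?_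
  simp

lemma rr_sum_le (f : ℕ → ℕ) (k N : ℕ) :
    ∑ m ∈ range (N + 1), (rr f k m : ℝ) ≤ ((∑ i ∈ range (N + 1), f i : ℕ) : ℝ) ^ k := by
  have h1 : ∑ m ∈ range (N + 1), (rr f k m : ℝ) = ∑ m ∈ range (N + 1), ((pol f N) ^ k).coeff m :=
    Finset.sum_congr rfl fun m hm => (pol_pow_coeff f N k m (by have := mem_range.1 hm; omega)).symm
  rw [h1, ← pol_eval, ← eval_pow]
  exact sum_coeff_le (pow_coeff_nonneg (pol_nonneg f N) k) _

lemma rr_add (f : ℕ → ℕ) (j k m : ℕ) :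
    ∑ p ∈ antidiagonal m, (rr f j p.1 : ℝ) * (rr f k p.2 : ℝ) = (rr f (j + k) m : ℝ) := by
  rw [← pol_pow_coeff f m (j + k) m le_rfl, pow_add, coeff_mul]
  refine Finset.sum_congr rfl fun p hp => ?_
  rw [HasAntidiagonal.mem_antidiagonal] at hp
  rw [pol_pow_coeff f m j p.1 (by omega), pol_pow_coeff f m k p.2 (by omega)]

/-- evaluation at a complex number -/
lemma aeval_sum (p : ℝ[X]) (w : ℂ) (n : ℕ) (hn : p.natDegree < n) :
    aeval w p = ∑ m ∈ range n, (p.coeff m : ℂ) * w ^ m := by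
  rw [aeval_eq_sum_range' hn]
  refine Finset.sum_congr rfl fun m _ => ?_
  rw [Complex.real_smul]

/-- the exponential sum of a power -/
lemma norm_pow_le (f : ℕ → ℕ) (N k : ℕ) (w : ℂ) (hw : ‖w‖ = 1) :
    ‖aeval w (pol f N)‖ ^ k ≤ ‖∑ m ∈ range (N + 1), (rr f k m : ℂ) * w ^ m‖ +
      (((∑ i ∈ range (N + 1), f i : ℕ) : ℝ) ^ k - ∑ m ∈ range (N + 1), (rr f k m : ℝ)) := by
  set P := (pol f N) ^ k with hP
  obtain ⟨n, hn⟩ : ∃ n, n = P.natDegree + 1 + (N + 1) := ⟨_, rfl⟩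
  have hPn : P.natDegree < n := by omega
  have hNn : N + 1 ≤ n := by omega
  have h1 : aeval w P = ∑ m ∈ range (N + 1), (rr f k m : ℂ) * w ^ m + ∑ m ∈ Ico (N + 1) n, (P.coeff m : ℂ) * w ^ m := by
    rw [aeval_sum P w n hPn, ← Finset.sum_range_add_sum_Ico _ hNn]
    congr 1
    refine Finset.sum_congr rfl fun m hm => ?_
    rw [hP, pol_pow_coeff f N k m (by have := mem_range.1 hm; omega)]
    push_cast
    rfl
  have h2 : ((∑ i ∈ range (N + 1), f i : ℕ) : ℝ) ^ k = ∑ m ∈ range (N + 1), (rr f k m : ℝ) +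
      ∑ m ∈ Ico (N + 1) n, P.coeff m := by
    rw [← pol_eval, ← eval_pow, ← hP, eval_eq_sum_range' hPn]
    simp only [one_pow, mul_one]
    rw [← Finset.sum_range_add_sum_Ico _ hNn]
    congr 1
    refine Finset.sum_congr rfl fun m hm => ?_
    rw [hP, pol_pow_coeff f N k m (by have := mem_range.1 hm; omega)]
  have h3 : ‖aeval w (pol f N)‖ ^ k = ‖aeval w P‖ := by rw [hP, map_pow, norm_pow]
  rw [h3, h1, h2]
  refine (norm_add_le _ _).trans ?_
  have h4 : ‖∑ m ∈ Ico (N + 1) n, (P.coeff m : ℂ) * w ^ m‖ ≤ ∑ m ∈ Ico (N + 1) n, P.coeff m := by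
    refine (norm_sum_le _ _).trans (Finset.sum_le_sum fun m _ => ?_)
    rw [norm_mul, norm_pow, hw, one_pow, mul_one, Complex.norm_real,
      Real.norm_of_nonneg (pow_coeff_nonneg (pol_nonneg f N) k m)]
  linarith

end Pool.Agent.U746.ST
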