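import Pool.Agent.U278.SD.Core
import Pool.Agent.U746.ST.Four
import Pool.Agent.U746.ST.Rep

set_option autoImplicit false

/-! # Even degree -/

open Finset Polynomial

namespace Pool.Agent.U746.ST

open Pool.Agent.H820R3.DG (rr)
open Pool.Agent.U278.SD

/-- the root of unity `exp (2 π i (h + 1) / (64 s ℓ))` -/
lemma root_facts (s ℓ h : ℕ) (hs : 1 ≤ s) (hℓ : 1 ≤ ℓ) (hh : h < 4) :
    ‖Complex.exp (Complex.I * (fq (s * ℓ) h : ℂ))‖ = 1 ∧
    ((Complex.exp (Complex.I * (fq (s * ℓ) h : ℂ))) ^ ℓ) ^ (64 * s) = 1 ∧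
    (Complex.exp (Complex.I * (fq (s * ℓ) h : ℂ))) ^ ℓ ≠ 1 ∧
    ∀ i ≤ ℓ, ‖(Complex.exp (Complex.I * (fq (s * ℓ) h : ℂ))) ^ i - 1‖ ≤ 1 / (2 * s) := by
  have hsR : (1 : ℝ) ≤ s := by exact_mod_cast hs
  have hℓR : (1 : ℝ) ≤ ℓ := by exact_mod_cast hℓ
  have hhR : (h : ℝ) + 1 ≤ 4 := by
    have : h + 1 ≤ 4 := by omega
    exact_mod_cast this
  have hh0 : (0 : ℝ) ≤ h := Nat.cast_nonneg h
  obtain ⟨φ, hφ⟩ : ∃ φ : ℝ, φ = fq (s * ℓ) h := ⟨_, rfl⟩
  rw [← hφ]
  have hφe : φ * (64 * (s * ℓ)) = 2 * Real.pi * (h + 1) := by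
    rw [hφ]
    unfold fq
    push_cast
    field_simp
    norm_num
  have hpi := Real.pi_pos
  have hφ0 : 0 < φ := by
    by_contra hcon
    rw [not_lt] at hcon
    have h1 : φ * (64 * (s * ℓ)) ≤ 0 := mul_nonpos_of_nonpos_of_nonneg hcon (by positivity)
    rw [hφe] at h1
    have : 0 < 2 * Real.pi * ((h : ℝ) + 1) := by positivity
    linarith
  have hnorm : ∀ t : ℝ, ‖Complex.exp (Complex.I * (t : ℂ))‖ = 1 := by
    intro t
    rw [mul_comm]
    exact Complex.norm_exp_ofReal_mul_I t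
  have hpow : ∀ n : ℕ, (Complex.exp (Complex.I * (φ : ℂ))) ^ n = Complex.exp (Complex.I * ((φ * n : ℝ) : ℂ)) := by
    intro n
    rw [← Complex.exp_nat_mul]
    congr 1
    push_cast
    ring
  refine ⟨hnorm φ, ?_, ?_, ?_⟩
  · rw [← pow_mul, hpow]
    have e : φ * ((ℓ * (64 * s) : ℕ) : ℝ) = 2 * Real.pi * ((h + 1 : ℕ) : ℝ) := by
      push_cast
      rw [← hφe]
      ring
    rw [e, Complex.exp_eq_one_iff]
    refine ⟨(h + 1 : ℕ), ?_⟩
    push_cast
    ring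
  · rw [hpow]
    intro hcon
    rw [Complex.exp_eq_one_iff] at hcon
    obtain ⟨n, hn⟩ := hcon
    have h1 : (φ * ℓ : ℝ) = n * (2 * Real.pi) := by
      have h2 := congrArg Complex.im hn
      simp at h2
      linarith
    have h3 : (h : ℝ) + 1 = n * (64 * s) := by
      have h4 : 2 * Real.pi * ((h : ℝ) + 1) = 2 * Real.pi * (n * (64 * s)) := by
        rw [← hφe]
        have : φ * (64 * (s * ℓ)) = (φ * ℓ) * (64 * s) := by ring
        rw [this, h1]
        ring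
      exact mul_left_cancel₀ (by positivity) h4
    have h5 : ((h + 1 : ℕ) : ℤ) = n * (64 * s) := by
      have : (((h + 1 : ℕ) : ℤ) : ℝ) = ((n * (64 * s) : ℤ) : ℝ) := by push_cast; exact h3
      exact_mod_cast this
    have h6 : (1 : ℤ) ≤ s := by exact_mod_cast hs
    have h7 : ((h + 1 : ℕ) : ℤ) ≤ 4 := by omega
    have h8 : (1 : ℤ) ≤ ((h + 1 : ℕ) : ℤ) := by omega
    have h9 : (0 : ℤ) < n := by
      by_contra hc
      rw [not_lt] at hc
      nlinarith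
    nlinarith
  · intro i hi
    rw [hpow]
    have hiR : (i : ℝ) ≤ ℓ := by exact_mod_cast hi
    have h1 : ‖Complex.exp (Complex.I * ((φ * i : ℝ) : ℂ)) - 1‖ ≤ ‖(φ * i : ℝ)‖ :=
      Real.norm_exp_I_mul_ofReal_sub_one_le
    refine h1.trans ?_
    rw [Real.norm_of_nonneg (by positivity), le_div_iff₀ (by positivity)]
    have h2 : φ * i * (2 * s) ≤ φ * ℓ * (2 * s) := by
      apply mul_le_mul_of_nonneg_right _ (by positivity)
      exact mul_le_mul_of_nonneg_left hiR hφ0.le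
    have h3 : φ * ℓ * (2 * s) = Real.pi * (h + 1) / 16 := by
      have : φ * ℓ * (2 * s) = φ * (64 * (s * ℓ)) / 32 := by ring
      rw [this, hφe]
      ring
    rw [h3] at h2
    have h4 := Real.pi_lt_four
    nlinarith

/-- the finite inequality for even degree -/
theorem even_fin (f : ℕ → ℕ) (k s ℓ : ℕ) (hs : 1 ≤ s) (hℓ : 1 ≤ ℓ) (c η : ℝ) (hc : 0 ≤ c) (hη : 0 ≤ η)
    (hwin : ∀ j < 64 * s, c * ℓ - η ≤ ∑ i ∈ range ℓ, (rr f (2 * k) (j * ℓ + 1 + i) : ℝ)) :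
    11 / 10 * c * (64 * (s * ℓ)) ≤ ((∑ i ∈ range (64 * (s * ℓ) + 1), f i : ℕ) : ℝ) ^ (2 * k) +
      2 * (64 * s * η + 1 / s * (c * (64 * (s * ℓ)) +
        ((∑ i ∈ range (64 * (s * ℓ) + 1), f i : ℕ) : ℝ) ^ (2 * k))) + 37 * c := by
  have hsR : (1 : ℝ) ≤ s := by exact_mod_cast hs
  have hℓR : (1 : ℝ) ≤ ℓ := by exact_mod_cast hℓ
  have hL : 0 < s * ℓ := Nat.mul_pos hs hℓ
  have hN : 64 * s * ℓ = 64 * (s * ℓ) := by ring
  obtain ⟨F, hF⟩ : ∃ F : ℝ, F = ((∑ i ∈ range (64 * (s * ℓ) + 1), f i : ℕ) : ℝ) := ⟨_, rfl⟩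
  rw [← hF]
  have hF0 : 0 ≤ F := by rw [hF]; positivity
  obtain ⟨a, ha⟩ : ∃ a : ℕ → ℝ, a = fun m => (rr f k m : ℝ) := ⟨_, rfl⟩
  have ha0 : ∀ i, 0 ≤ a i := by intro i; rw [ha]; positivity
  have hra : ∀ m, ra a m = (rr f (2 * k) m : ℝ) := by
    intro m
    unfold ra
    rw [ha, show 2 * k = k + k by ring]
    exact rr_add f k k m
  have hKa : Ka a (64 * (s * ℓ)) ≤ F ^ k := by
    unfold Ka
    rw [ha, hF]
    exact rr_sum_le f k _
  have hKa0 : 0 ≤ Ka a (64 * (s * ℓ)) := Finset.sum_nonneg fun i _ => ha0 i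
  have hKa2 : Ka a (64 * (s * ℓ)) ^ 2 ≤ F ^ (2 * k) := by
    rw [show 2 * k = k * 2 by ring, pow_mul]
    exact pow_le_pow_left₀ hKa0 hKa 2
  have hRa : ∑ m ∈ range (64 * (s * ℓ) + 1), (rr f (2 * k) m : ℝ) ≤ F ^ (2 * k) := by
    rw [hF]
    exact rr_sum_le f (2 * k) _
  have hRa0 : 0 ≤ ∑ m ∈ range (64 * (s * ℓ) + 1), (rr f (2 * k) m : ℝ) := Finset.sum_nonneg fun i _ => by positivity
  obtain ⟨R, hR⟩ : ∃ R : ℝ, R = ∑ m ∈ range (64 * (s * ℓ) + 1), (rr f (2 * k) m : ℝ) := ⟨_, rfl⟩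
  rw [← hR] at hRa hRa0
  have hE0 : 0 ≤ 64 * s * η + 1 / s * (c * (64 * (s * ℓ)) + F ^ (2 * k)) := by positivity
  have hLc : ((64 * (s * ℓ) : ℕ) : ℝ) = 64 * (s * ℓ) := by push_cast; ring
  have key := core (L := s * ℓ) hL (a := a) ha0 (c := c)
    (E := 64 * s * η + 1 / s * (c * (64 * (s * ℓ)) + F ^ (2 * k))) hc hE0 ?_ ?_
  · push_cast at key
    linarith
  · intro h hh
    obtain ⟨r1, r2, r3, r4⟩ := root_facts s ℓ h hs hℓ hh
    have h1 := Fa_sq ha0 (64 * (s * ℓ)) r1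
    have h2 := block_trig (fun m => (rr f (2 * k) m : ℝ)) (fun m => by positivity) (64 * s) ℓ c η (1 / (2 * s))
      _ r1 r2 r3 r4 hwin
    rw [hN] at h2
    simp only [← hR] at h2
    have h3 : ∑ m ∈ range (64 * (s * ℓ) + 1), (ra a m : ℂ) * (Complex.exp (Complex.I * (fq (s * ℓ) h : ℂ))) ^ m =
        ∑ m ∈ range (64 * (s * ℓ) + 1), (((rr f (2 * k) m : ℝ)) : ℂ) *
          (Complex.exp (Complex.I * (fq (s * ℓ) h : ℂ))) ^ m := by
      refine Finset.sum_congr rfl fun m _ => ?_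
      rw [hra]
    rw [h3] at h1
    have h4 : Ra a (64 * (s * ℓ)) = R := by
      unfold Ra
      rw [hR]
      exact Finset.sum_congr rfl fun m _ => hra m
    have h5 := Ka_sq a (64 * (s * ℓ))
    rw [h4] at h5
    refine h1.trans ((add_le_add h2 le_rfl).trans ?_)
    have h6 : (1 : ℝ) / (2 * s) * R ≤ 1 / s * (c * (64 * (s * ℓ)) + F ^ (2 * k)) := by
      apply mul_le_mul _ _ hRa0 (by positivity)
      · apply one_div_le_one_div_of_le <;> linarith
      · have : 0 ≤ c * (64 * (s * ℓ)) := by positivity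
        linarith
    push_cast
    push_cast at h6
    nlinarith
  · have h2 := block_wt (fun m => (rr f (2 * k) m : ℝ)) (ip (s * ℓ) uu) (fun m => by positivity) (64 * s) ℓ c η (1 / s)
      hc hη (by positivity) (fun m _ => ip_nonneg hL m) (fun m hm => ip_le_one hL (by rw [hN] at hm; exact hm)) ?_ hwin
    · rw [hN] at h2
      simp only [← hR] at h2
      have h3 : ∑ m ∈ range (64 * (s * ℓ) + 1), ra a m * ip (s * ℓ) uu m =
          ∑ m ∈ range (64 * (s * ℓ) + 1), (rr f (2 * k) m : ℝ) * ip (s * ℓ) uu m := by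
        refine Finset.sum_congr rfl fun m _ => ?_
        rw [hra]
      rw [h3]
      refine le_trans ?_ h2
      have h4 : (1 : ℝ) / s * R ≤ 1 / s * F ^ (2 * k) := mul_le_mul_of_nonneg_left hRa (by positivity)
      push_cast
      linarith
    · intro j hj i hi
      have hlip : ∀ n : ℕ, n ≤ i + 1 → |ip (s * ℓ) uu (j * ℓ + n) - ip (s * ℓ) uu (j * ℓ)| ≤ n * (1 / ((s * ℓ : ℕ) : ℝ)) := by
        intro n
        induction n with
        | zero => intro _; simp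
        | succ n ih =>
          intro hn
          have h1 := ih (by omega)
          have hz : j * ℓ + n < 64 * (s * ℓ) := by
            have h3 : j * ℓ + ℓ ≤ 64 * s * ℓ := by
              have : (j + 1) * ℓ ≤ 64 * s * ℓ := Nat.mul_le_mul_right ℓ hj
              linarith
            rw [hN] at h3
            omega
          have h2 := ip_lip hL hz
          have h3 := abs_add_le (ip (s * ℓ) uu (j * ℓ + n + 1) - ip (s * ℓ) uu (j * ℓ + n))
            (ip (s * ℓ) uu (j * ℓ + n) - ip (s * ℓ) uu (j * ℓ))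
          rw [sub_add_sub_cancel] at h3
          push_cast at h1 h2 ⊢
          rw [← add_assoc]
          linarith
      have h1 := hlip (i + 1) le_rfl
      rw [show j * ℓ + 1 + i = j * ℓ + (i + 1) by ring]
      refine h1.trans ?_
      have hi1 : ((i + 1 : ℕ) : ℝ) ≤ ℓ := by exact_mod_cast hi
      rw [mul_one_div, div_le_div_iff₀ (by positivity) (by positivity)]
      push_cast at hi1 ⊢
      nlinarith

end Pool.Agent.U746.ST
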