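import Pool.Agent.H820R3.DG.Defs2

set_option autoImplicit false

/-! # The convolution inequality -/

open Finset MeasureTheory

namespace Pool.Agent.U746.ST

open Pool.Agent.H820R3.DG (rr)

theorem beta_real (p q T : ℝ) (hp : 0 < p) (hq : 0 < q) (hT : 0 < T) :
    ∫ w in (0 : ℝ)..T, w ^ (p - 1) * (T - w) ^ (q - 1) =
      T ^ (p + q - 1) * (Real.Gamma p * Real.Gamma q / Real.Gamma (p + q)) := by
  have h1 := Complex.betaIntegral_scaled (p : ℂ) (q : ℂ) hT
  rw [Complex.betaIntegral_eq_Gamma_mul_div (p : ℂ) (q : ℂ) (by simpa using hp) (by simpa using hq)] at h1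
  have h2 : ∫ w in (0 : ℝ)..T, (w : ℂ) ^ ((p : ℂ) - 1) * ((T : ℂ) - w) ^ ((q : ℂ) - 1) =
      ∫ w in (0 : ℝ)..T, ((w ^ (p - 1) * (T - w) ^ (q - 1) : ℝ) : ℂ) := by
    apply intervalIntegral.integral_congr
    intro w hw
    rw [Set.uIcc_of_le hT.le] at hw
    have e1 : (w : ℂ) ^ ((p : ℂ) - 1) = ((w ^ (p - 1) : ℝ) : ℂ) := by
      rw [Complex.ofReal_cpow hw.1]
      push_cast
      rfl
    have e2 : ((T : ℂ) - w) ^ ((q : ℂ) - 1) = (((T - w) ^ (q - 1) : ℝ) : ℂ) := by
      rw [Complex.ofReal_cpow (by linarith [hw.2])]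
      push_cast
      rfl
    simp only [e1, e2]
    push_cast
    rfl
  rw [h2, intervalIntegral.integral_ofReal] at h1
  apply Complex.ofReal_injective
  rw [h1]
  rw [Complex.ofReal_mul, Complex.ofReal_div, Complex.ofReal_mul, Complex.ofReal_cpow hT.le]
  rw [Complex.Gamma_ofReal, Complex.Gamma_ofReal]
  have e3 : (p : ℂ) + q = ((p + q : ℝ) : ℂ) := by push_cast; rfl
  rw [e3, Complex.Gamma_ofReal]
  push_cast
  rfl

/-- one step of the induction -/
theorem step (f : ℕ → ℕ) (c u θ : ℝ) (hc : 0 ≤ c) (hu : 0 ≤ u) (hθ : 0 < θ) (N : ℕ)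
    (hF : ∀ t ≤ N, ((∑ i ∈ range (t + 1), f i : ℕ) : ℝ) ≤ c * ((t : ℝ) + u) ^ θ) (v α A : ℝ) (hv : 0 ≤ v)
    (hα : 0 < α) (hA : 0 ≤ A) (t : ℕ) (ht : t ≤ N) :
    ∑ i ∈ range (t + 1), (f i : ℝ) * (A * (((t - i : ℕ) : ℝ) + v) ^ α) ≤
      A * c * (Real.Gamma (1 + α) * Real.Gamma (1 + θ) / Real.Gamma (1 + α + θ)) * ((t : ℝ) + u + v) ^ (α + θ) := by
  have hG1 : 0 < Real.Gamma (1 + α) := Real.Gamma_pos_of_pos (by linarith)
  have hG2 : 0 < Real.Gamma (1 + θ) := Real.Gamma_pos_of_pos (by linarith)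
  have hG3 : 0 < Real.Gamma (1 + α + θ) := Real.Gamma_pos_of_pos (by linarith)
  have ht0 : (0 : ℝ) ≤ t := Nat.cast_nonneg t
  obtain ⟨T, hTd⟩ : ∃ T : ℝ, T = (t : ℝ) + u + v := ⟨_, rfl⟩
  rw [← hTd]
  rcases eq_or_lt_of_le (show 0 ≤ T by rw [hTd]; linarith) with hT0 | hT
  · -- everything is zero
    have h1 : (t : ℝ) = 0 := by linarith
    have h2 : v = 0 := by linarith
    have h3 : t = 0 := by exact_mod_cast h1
    subst h3
    rw [h2]
    simp [Real.zero_rpow hα.ne']
    positivity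
  have hint : IntegrableOn (fun w : ℝ => w ^ (α - 1)) (Set.Ioc 0 T) volume := by
    rw [← intervalIntegrable_iff_integrableOn_Ioc_of_le hT.le]
    exact intervalIntegral.intervalIntegrable_rpow' (by linarith)
  -- every term as an integral
  have hterm : ∀ i ∈ range (t + 1), (f i : ℝ) * (A * (((t - i : ℕ) : ℝ) + v) ^ α) =
      ∫ w in Set.Ioc 0 T, (Set.Ioc 0 (((t - i : ℕ) : ℝ) + v)).indicator
        (fun w => (f i : ℝ) * (A * (α * w ^ (α - 1)))) w := by
    intro i _
    obtain ⟨s, hs⟩ : ∃ s : ℝ, s = ((t - i : ℕ) : ℝ) + v := ⟨_, rfl⟩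
    rw [← hs]
    have hs0 : 0 ≤ s := by rw [hs]; positivity
    have hsT : s ≤ T := by
      rw [hs, hTd]
      have : ((t - i : ℕ) : ℝ) ≤ t := by exact_mod_cast Nat.sub_le t i
      linarith
    rw [setIntegral_indicator measurableSet_Ioc, Set.Ioc_inter_Ioc, max_self, min_eq_right hsT,
      ← intervalIntegral.integral_of_le hs0]
    rw [intervalIntegral.integral_const_mul, intervalIntegral.integral_const_mul, intervalIntegral.integral_const_mul,
      integral_rpow (Or.inl (by linarith)), sub_add_cancel, Real.zero_rpow hα.ne', sub_zero]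
    field_simp
  rw [Finset.sum_congr rfl hterm, ← integral_finset_sum]
  swap
  · intro i _
    apply Integrable.indicator _ measurableSet_Ioc
    exact ((hint.const_mul α).const_mul A).const_mul _
  -- the right side as an integral
  have hright : A * c * (Real.Gamma (1 + α) * Real.Gamma (1 + θ) / Real.Gamma (1 + α + θ)) * T ^ (α + θ) =
      ∫ w in Set.Ioc 0 T, A * c * α * (w ^ (α - 1) * (T - w) ^ (1 + θ - 1)) := by
    rw [← intervalIntegral.integral_of_le hT.le, intervalIntegral.integral_const_mul,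
      beta_real α (1 + θ) T hα (by linarith) hT]
    have e1 : Real.Gamma (1 + α) = α * Real.Gamma α := by rw [add_comm, Real.Gamma_add_one hα.ne']
    have e2 : α + (1 + θ) - 1 = α + θ := by ring
    have e3 : α + (1 + θ) = 1 + α + θ := by ring
    rw [e1, e2, e3]
    ring
  rw [hright]
  apply setIntegral_mono_on
  · apply integrable_finset_sum
    intro i _
    apply Integrable.indicator _ measurableSet_Ioc
    exact ((hint.const_mul α).const_mul A).const_mul _
  · rw [← intervalIntegrable_iff_integrableOn_Ioc_of_le hT.le]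
    apply IntervalIntegrable.const_mul
    apply IntervalIntegrable.mul_continuousOn
    · exact intervalIntegral.intervalIntegrable_rpow' (by linarith)
    · apply Continuous.continuousOn
      exact (continuous_const.sub continuous_id).rpow_const (fun _ => Or.inr (by linarith))
  · exact measurableSet_Ioc
  · intro w hw
    have hw0 : 0 < w := hw.1
    have hp : 0 ≤ w ^ (α - 1) := by positivity
    have e4 : (1 : ℝ) + θ - 1 = θ := by ring
    rw [e4]
    have h1 : ∀ i ∈ range (t + 1), (Set.Ioc 0 (((t - i : ℕ) : ℝ) + v)).indicator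
        (fun w => (f i : ℝ) * (A * (α * w ^ (α - 1)))) w =
        (A * α * w ^ (α - 1)) * (if w ≤ ((t - i : ℕ) : ℝ) + v then (f i : ℝ) else 0) := by
      intro i _
      by_cases h : w ≤ ((t - i : ℕ) : ℝ) + v
      · rw [Set.indicator_of_mem (show w ∈ Set.Ioc 0 (((t - i : ℕ) : ℝ) + v) from ⟨hw0, h⟩), if_pos h]
        ring
      · rw [Set.indicator_of_notMem (fun h' => h h'.2), if_neg h, mul_zero]
    rw [Finset.sum_congr rfl h1, ← Finset.mul_sum]
    have h2 : ∑ i ∈ range (t + 1), (if w ≤ ((t - i : ℕ) : ℝ) + v then (f i : ℝ) else 0) ≤ c * (T - w) ^ θ := by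
      rw [← Finset.sum_filter]
      by_cases hs : (t : ℝ) + v - w < 0
      · have h3 : (range (t + 1)).filter (fun i => w ≤ ((t - i : ℕ) : ℝ) + v) = ∅ := by
          apply Finset.filter_false_of_mem
          intro i _ hcon
          have : ((t - i : ℕ) : ℝ) ≤ t := by exact_mod_cast Nat.sub_le t i
          linarith
        rw [h3, Finset.sum_empty]
        have : 0 ≤ T - w := by linarith [hw.2]
        positivity
      · rw [not_lt] at hs
        obtain ⟨j, hj⟩ : ∃ j : ℕ, j = min t ⌊(t : ℝ) + v - w⌋₊ := ⟨_, rfl⟩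
        have hjt : j ≤ t := by rw [hj]; exact min_le_left _ _
        have hjs : (j : ℝ) ≤ (t : ℝ) + v - w := by
          have : (j : ℝ) ≤ (⌊(t : ℝ) + v - w⌋₊ : ℝ) := by
            exact_mod_cast (by rw [hj]; exact min_le_right _ _ : j ≤ ⌊(t : ℝ) + v - w⌋₊)
          exact this.trans (Nat.floor_le hs)
        have hsub : (range (t + 1)).filter (fun i => w ≤ ((t - i : ℕ) : ℝ) + v) ⊆ range (j + 1) := by
          intro i hi
          rw [mem_filter, mem_range] at hi
          rw [mem_range]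
          have hit : i ≤ t := by omega
          have h4 : ((t - i : ℕ) : ℝ) = (t : ℝ) - i := by rw [Nat.cast_sub hit]
          have h5 : (i : ℝ) ≤ (t : ℝ) + v - w := by
            have := hi.2
            rw [h4] at this
            linarith
          have h6 : i ≤ ⌊(t : ℝ) + v - w⌋₊ := Nat.le_floor h5
          have h7 : i ≤ j := by rw [hj]; exact le_min hit h6
          omega
        calc ∑ i ∈ (range (t + 1)).filter (fun i => w ≤ ((t - i : ℕ) : ℝ) + v), (f i : ℝ)
            ≤ ∑ i ∈ range (j + 1), (f i : ℝ) :=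
              Finset.sum_le_sum_of_subset_of_nonneg hsub (fun _ _ _ => Nat.cast_nonneg _)
          _ = ((∑ i ∈ range (j + 1), f i : ℕ) : ℝ) := by push_cast; rfl
          _ ≤ c * ((j : ℝ) + u) ^ θ := hF j (hjt.trans ht)
          _ ≤ c * (T - w) ^ θ := by
              apply mul_le_mul_of_nonneg_left _ hc
              apply Real.rpow_le_rpow (by positivity) _ hθ.le
              rw [hTd]
              linarith
    calc (A * α * w ^ (α - 1)) * ∑ i ∈ range (t + 1), (if w ≤ ((t - i : ℕ) : ℝ) + v then (f i : ℝ) else 0)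
        ≤ (A * α * w ^ (α - 1)) * (c * (T - w) ^ θ) := mul_le_mul_of_nonneg_left h2 (by positivity)
      _ = _ := by ring

/-- partial sums of the representation numbers -/
theorem conv (f : ℕ → ℕ) (k t : ℕ) : ∑ m ∈ range (t + 1), rr f (k + 1) m =
    ∑ i ∈ range (t + 1), f i * ∑ m ∈ range (t - i + 1), rr f k m := by
  have hrr : ∀ m, rr f (k + 1) m = ∑ i ∈ range (m + 1), f i * rr f k (m - i) := by
    intro m
    have h : rr f (k + 1) m = ∑ p ∈ antidiagonal m, f p.1 * rr f k p.2 := rfl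
    rw [h, Finset.Nat.sum_antidiagonal_eq_sum_range_succ_mk]
  induction t with
  | zero => simp [hrr]
  | succ t ih =>
    rw [Finset.sum_range_succ, ih, hrr, Finset.sum_range_succ _ (t + 1), Finset.sum_range_succ _ (t + 1)]
    have h1 : ∑ i ∈ range (t + 1), f i * ∑ m ∈ range (t + 1 - i + 1), rr f k m =
        ∑ i ∈ range (t + 1), (f i * ∑ m ∈ range (t - i + 1), rr f k m + f i * rr f k (t + 1 - i)) := by
      apply Finset.sum_congr rfl
      intro i hi
      rw [mem_range] at hi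
      have h2 : t + 1 - i = (t - i) + 1 := by omega
      rw [h2, Finset.sum_range_succ _ (t - i + 1), mul_add]
    rw [h1, Finset.sum_add_distrib]
    simp
    ring

/-- the convolution inequality -/
theorem stohr (f : ℕ → ℕ) (c u θ : ℝ) (hc : 0 ≤ c) (hu : 0 ≤ u) (hθ : 0 < θ) (N : ℕ)
    (hF : ∀ t ≤ N, ((∑ i ∈ range (t + 1), f i : ℕ) : ℝ) ≤ c * ((t : ℝ) + u) ^ θ) (k : ℕ) :
    ∀ t ≤ N, ((∑ m ∈ range (t + 1), rr f (k + 1) m : ℕ) : ℝ) ≤
      c ^ (k + 1) * (Real.Gamma (1 + θ) ^ (k + 1) / Real.Gamma (1 + (k + 1) * θ)) *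
        ((t : ℝ) + (k + 1) * u) ^ ((k + 1) * θ) := by
  have hG : ∀ x : ℝ, 0 < x → 0 < Real.Gamma x := fun x hx => Real.Gamma_pos_of_pos hx
  induction k with
  | zero =>
    intro t ht
    have h1 : ∑ m ∈ range (t + 1), rr f (0 + 1) m = ∑ i ∈ range (t + 1), f i := by
      rw [conv]
      apply Finset.sum_congr rfl
      intro i _
      have h2 : ∑ m ∈ range (t - i + 1), rr f 0 m = 1 := by
        rw [Finset.sum_range_succ']
        simp [rr]
      rw [h2, mul_one]
    rw [h1]
    refine (hF t ht).trans (le_of_eq ?_)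
    have h3 := (hG (1 + θ) (by linarith)).ne'
    simp only [Nat.cast_zero, zero_add, one_mul, pow_one]
    rw [div_self h3, mul_one]
  | succ k ih =>
    intro t ht
    rw [conv]
    push_cast
    obtain ⟨A, hA⟩ : ∃ A : ℝ, A = c ^ (k + 1) * (Real.Gamma (1 + θ) ^ (k + 1) / Real.Gamma (1 + (k + 1) * θ)) := ⟨_, rfl⟩
    have hk : (0 : ℝ) < (k : ℝ) + 1 := by positivity
    have hα : 0 < ((k : ℝ) + 1) * θ := by positivity
    have hg1 := hG (1 + θ) (by linarith)
    have hg2 := hG (1 + ((k : ℝ) + 1) * θ) (by linarith)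
    have hA0 : 0 ≤ A := by rw [hA]; positivity
    have h1 : ∑ i ∈ range (t + 1), (f i : ℝ) * ∑ m ∈ range (t - i + 1), (rr f (k + 1) m : ℝ) ≤
        ∑ i ∈ range (t + 1), (f i : ℝ) * (A * (((t - i : ℕ) : ℝ) + ((k : ℝ) + 1) * u) ^ (((k : ℝ) + 1) * θ)) := by
      apply Finset.sum_le_sum
      intro i _
      apply mul_le_mul_of_nonneg_left _ (Nat.cast_nonneg _)
      have h2 := ih (t - i) ((Nat.sub_le t i).trans ht)
      rw [← hA] at h2
      push_cast at h2 ⊢
      exact h2
    refine h1.trans ?_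
    have h2 := step f c u θ hc hu hθ N hF (((k : ℝ) + 1) * u) (((k : ℝ) + 1) * θ) A (by positivity) hα hA0 t ht
    refine h2.trans (le_of_eq ?_)
    have e1 : (t : ℝ) + u + ((k : ℝ) + 1) * u = t + ((k : ℝ) + 1 + 1) * u := by ring
    have e2 : ((k : ℝ) + 1) * θ + θ = ((k : ℝ) + 1 + 1) * θ := by ring
    have e3 : 1 + ((k : ℝ) + 1) * θ + θ = 1 + ((k : ℝ) + 1 + 1) * θ := by ring
    rw [e1, e2, e3, hA, pow_succ c (k + 1), pow_succ (Real.Gamma (1 + θ)) (k + 1)]
    have hg3 := (hG (1 + ((k : ℝ) + 1 + 1) * θ) (by positivity)).ne'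
    field_simp

end Pool.Agent.U746.ST
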