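import Pool.Agent.U746.ST.Even

set_option autoImplicit false

/-! # Odd degree -/

open Finset Polynomial

namespace Pool.Agent.U746.ST

open Pool.Agent.H820R3.DG (rr)
open Pool.Agent.U278.SD

/-- the exponential sums at the small frequencies -/
lemma A_bound (f : ℕ → ℕ) (D s ℓ h : ℕ) (hs : 1 ≤ s) (hℓ : 1 ≤ ℓ) (hh : h < 4) (c η : ℝ)
    (hwin : ∀ j < 64 * s, c * ℓ - η ≤ ∑ i ∈ range ℓ, (rr f D (j * ℓ + 1 + i) : ℝ)) :
    ‖aeval (Complex.exp (Complex.I * (fq (s * ℓ) h : ℂ))) (pol f (64 * (s * ℓ)))‖ ^ D ≤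
      ((∑ i ∈ range (64 * (s * ℓ) + 1), f i : ℕ) : ℝ) ^ D - c * (64 * (s * ℓ)) + 64 * s * η +
        1 / (2 * s) * ((∑ i ∈ range (64 * (s * ℓ) + 1), f i : ℕ) : ℝ) ^ D := by
  obtain ⟨r1, r2, r3, r4⟩ := root_facts s ℓ h hs hℓ hh
  have hN : 64 * s * ℓ = 64 * (s * ℓ) := by ring
  have h1 := norm_pow_le f (64 * (s * ℓ)) D _ r1
  have h2 := block_trig (fun m => (rr f D m : ℝ)) (fun m => by positivity) (64 * s) ℓ c η (1 / (2 * s))
      _ r1 r2 r3 r4 hwin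
  rw [hN] at h2
  have h3 := rr_sum_le f D (64 * (s * ℓ))
  have h4 : (1 : ℝ) / (2 * s) * ∑ m ∈ range (64 * (s * ℓ) + 1), (rr f D m : ℝ) ≤
      1 / (2 * s) * ((∑ i ∈ range (64 * (s * ℓ) + 1), f i : ℕ) : ℝ) ^ D :=
    mul_le_mul_of_nonneg_left h3 (by positivity)
  refine h1.trans ?_
  have h5 : ‖∑ m ∈ range (64 * (s * ℓ) + 1), (rr f D m : ℂ) *
      (Complex.exp (Complex.I * (fq (s * ℓ) h : ℂ))) ^ m‖ = ‖∑ m ∈ range (64 * (s * ℓ) + 1), (((rr f D m : ℝ)) : ℂ) *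
          (Complex.exp (Complex.I * (fq (s * ℓ) h : ℂ))) ^ m‖ := by
    congr 1
  rw [h5]
  push_cast at h2 h4 ⊢
  nlinarith

/-- the mass of the small sums -/
lemma R_lower (f : ℕ → ℕ) (D s ℓ : ℕ) (c η : ℝ)
    (hwin : ∀ j < 64 * s, c * ℓ - η ≤ ∑ i ∈ range ℓ, (rr f D (j * ℓ + 1 + i) : ℝ)) :
    c * (64 * (s * ℓ)) - 64 * s * η ≤ ∑ m ∈ range (64 * (s * ℓ) + 1), (rr f D m : ℝ) := by
  have h1 := block_split (fun m => (rr f D m : ℝ)) (64 * s) ℓ
  rw [show 64 * s * ℓ = 64 * (s * ℓ) by ring] at h1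
  rw [h1]
  have h2 : ∑ j ∈ range (64 * s), (c * ℓ - η) ≤ ∑ j ∈ range (64 * s), ∑ i ∈ range ℓ, (rr f D (j * ℓ + 1 + i) : ℝ) :=
    Finset.sum_le_sum fun j hj => hwin j (mem_range.1 hj)
  rw [Finset.sum_const, card_range, nsmul_eq_mul] at h2
  push_cast at h2
  have h3 : (0 : ℝ) ≤ (rr f D 0 : ℝ) := Nat.cast_nonneg _
  linarith

/-- the mass of the pairs of large places -/
lemma pairs_big (f : ℕ → ℕ) (k M : ℕ) :
    ∑ m ∈ range (2 * M + 1), (rr f (2 * k + 1) m : ℝ) ≤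
      ((∑ i ∈ range (2 * M + 1), f i : ℕ) : ℝ) *
        ((((∑ i ∈ range (2 * M + 1), f i : ℕ) : ℝ) ^ k) ^ 2 -
          (((∑ i ∈ range (2 * M + 1), f i : ℕ) : ℝ) ^ k - ∑ m ∈ range (M + 1), (rr f k m : ℝ)) ^ 2) := by
  obtain ⟨F, hF⟩ : ∃ F : ℝ, F = ((∑ i ∈ range (2 * M + 1), f i : ℕ) : ℝ) := ⟨_, rfl⟩
  rw [← hF]
  have hF0 : 0 ≤ F := by rw [hF]; positivity
  obtain ⟨a, ha⟩ : ∃ a : ℕ → ℝ, a = fun m => (rr f k m : ℝ) := ⟨_, rfl⟩
  have ha0 : ∀ i, 0 ≤ a i := by intro i; rw [ha]; positivity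
  have hra : ∀ m, ra a m = (rr f (2 * k) m : ℝ) := by
    intro m
    unfold ra
    rw [ha, show 2 * k = k + k by ring]
    exact rr_add f k k m
  have hKa : Ka a (2 * M) ≤ F ^ k := by
    unfold Ka
    rw [ha, hF]
    exact rr_sum_le f k _
  have hSg : ∑ m ∈ range (M + 1), (rr f k m : ℝ) = ∑ m ∈ range (M + 1), a m := by rw [ha]
  rw [hSg]
  obtain ⟨Sg, hSg'⟩ : ∃ Sg : ℝ, Sg = ∑ m ∈ range (M + 1), a m := ⟨_, rfl⟩
  rw [← hSg']
  have hSg0 : 0 ≤ Sg := by rw [hSg']; exact Finset.sum_nonneg fun i _ => ha0 i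
  -- the first factor
  have h1 : ∑ m ∈ range (2 * M + 1), (rr f (2 * k + 1) m : ℝ) ≤ F * Ra a (2 * M) := by
    have h2 : ∑ m ∈ range (2 * M + 1), (rr f (2 * k + 1) m : ℝ) =
        ∑ m ∈ range (2 * M + 1), ∑ p ∈ antidiagonal m, (f p.1 : ℝ) * (rr f (2 * k) p.2 : ℝ) := by
      refine Finset.sum_congr rfl fun m _ => ?_
      have h3 : rr f (2 * k + 1) m = ∑ p ∈ antidiagonal m, f p.1 * rr f (2 * k) p.2 := rfl
      rw [h3]
      push_cast
      rfl
    have h3 := Pool.Agent.H394R2.Ones.pair_sum (2 * M) (fun i j => (f i : ℝ) * (rr f (2 * k) j : ℝ))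
    have h4 : 0 ≤ ∑ p ∈ (range (2 * M + 1) ×ˢ range (2 * M + 1)).filter (fun p => ¬ p.1 + p.2 ≤ 2 * M),
        (f p.1 : ℝ) * (rr f (2 * k) p.2 : ℝ) := Finset.sum_nonneg fun p _ => by positivity
    have h5 : ∑ p ∈ range (2 * M + 1) ×ˢ range (2 * M + 1), (f p.1 : ℝ) * (rr f (2 * k) p.2 : ℝ) = F * Ra a (2 * M) := by
      rw [hF]
      push_cast
      unfold Ra
      rw [Finset.sum_mul_sum, Finset.sum_product]
      refine Finset.sum_congr rfl fun i _ => Finset.sum_congr rfl fun j _ => ?_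
      rw [hra]
    rw [h2, ← h5, h3]
    linarith
  have h2 := Ka_sq a (2 * M)
  have h3 : (Ka a (2 * M) - Sg) ^ 2 ≤ Qa a (2 * M) := by
    have h4 : Ka a (2 * M) - Sg = ∑ i ∈ Ico (M + 1) (2 * M + 1), a i := by
      unfold Ka
      rw [hSg', ← Finset.sum_range_add_sum_Ico a (show M + 1 ≤ 2 * M + 1 by omega)]
      ring
    rw [h4, sq, Finset.sum_mul_sum, ← Finset.sum_product']
    unfold Qa
    refine Finset.sum_le_sum_of_subset_of_nonneg ?_ fun p _ _ => mul_nonneg (ha0 _) (ha0 _)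
    intro p hp
    rw [mem_product, mem_Ico, mem_Ico] at hp
    rw [mem_filter, mem_product, mem_range, mem_range]
    omega
  have hKa0 : 0 ≤ Ka a (2 * M) := Finset.sum_nonneg fun i _ => ha0 i
  have hRa : Ra a (2 * M) ≤ (F ^ k) ^ 2 - (F ^ k - Sg) ^ 2 := by
    have h5 : 0 ≤ 2 * Sg * (F ^ k - Ka a (2 * M)) := by
      apply mul_nonneg (by positivity)
      linarith
    nlinarith
  exact h1.trans (mul_le_mul_of_nonneg_left hRa hF0)

/-- the test function -/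
lemma tau_ge (α : ℝ) : -23 ≤ 16 * Real.sin α + 8 * Real.cos (2 * α) + Real.cos (4 * α) ∧
    (0 ≤ Real.sin α → 9 ≤ 16 * Real.sin α + 8 * Real.cos (2 * α) + Real.cos (4 * α)) := by
  have h1 : Real.cos (2 * α) = 1 - 2 * Real.sin α ^ 2 := by
    rw [Real.cos_two_mul, Real.cos_sq']
    ring
  have h2 : Real.cos (4 * α) = 2 * (1 - 2 * Real.sin α ^ 2) ^ 2 - 1 := by
    rw [show 4 * α = 2 * (2 * α) by ring, Real.cos_two_mul, h1]
  rw [h1, h2]
  obtain ⟨x, hx⟩ : ∃ x : ℝ, x = Real.sin α := ⟨_, rfl⟩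
  have hx1 : x ≤ 1 := by rw [hx]; exact Real.sin_le_one α
  have hx2 : -1 ≤ x := by rw [hx]; exact Real.neg_one_le_sin α
  rw [← hx]
  constructor
  · have h3 : 0 ≤ (x + 1) * (x ^ 3 - x ^ 2 - 2 * x + 4) := by
      apply mul_nonneg (by linarith)
      have h4 : x ^ 2 ≤ 1 := by nlinarith
      have h5 : -1 ≤ x ^ 3 := by nlinarith [mul_nonneg (sub_nonneg.2 h4) (show 0 ≤ x + 1 by linarith)]
      linarith
    nlinarith
  · intro h0
    have h3 : 0 ≤ x * (1 - x) ^ 2 * (2 + x) := by positivity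
    nlinarith

/-- the inequality of the test function -/
lemma test_sum (f : ℕ → ℕ) (k L : ℕ) (hL : 0 < L) :
    9 * ∑ m ∈ range (32 * L + 1), (rr f k m : ℝ) -
      23 * (((∑ i ∈ range (64 * L + 1), f i : ℕ) : ℝ) ^ k - ∑ m ∈ range (32 * L + 1), (rr f k m : ℝ)) ≤
    16 * ‖aeval (Complex.exp (Complex.I * (fq L 0 : ℂ))) (pol f (64 * L))‖ ^ k +
      8 * ‖aeval (Complex.exp (Complex.I * (fq L 1 : ℂ))) (pol f (64 * L))‖ ^ k +
      ‖aeval (Complex.exp (Complex.I * (fq L 3 : ℂ))) (pol f (64 * L))‖ ^ k := by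
  have hLR : (0 : ℝ) < L := by exact_mod_cast hL
  set P := (pol f (64 * L)) ^ k with hP
  have hP0 := pow_coeff_nonneg (pol_nonneg f (64 * L)) k
  rw [← hP] at hP0
  obtain ⟨n, hn⟩ : ∃ n, n = P.natDegree + 1 + (64 * L + 1) := ⟨_, rfl⟩
  have hPn : P.natDegree < n := by omega
  have hNn : 32 * L + 1 ≤ n := by omega
  have hS : ∑ m ∈ range (32 * L + 1), (rr f k m : ℝ) = ∑ m ∈ range (32 * L + 1), P.coeff m := by
    refine Finset.sum_congr rfl fun m hm => ?_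
    rw [hP, pol_pow_coeff f (64 * L) k m (by have := mem_range.1 hm; omega)]
  have hT : ((∑ i ∈ range (64 * L + 1), f i : ℕ) : ℝ) ^ k = ∑ m ∈ range (32 * L + 1), P.coeff m +
      ∑ m ∈ Ico (32 * L + 1) n, P.coeff m := by
    rw [← pol_eval, ← eval_pow, ← hP, eval_eq_sum_range' hPn]
    simp only [one_pow, mul_one]
    rw [← Finset.sum_range_add_sum_Ico _ hNn]
  have hz : ∀ h : ℕ, aeval (Complex.exp (Complex.I * (fq L h : ℂ))) P =
      ∑ m ∈ range n, (P.coeff m : ℂ) * Complex.exp (((fq L h * m : ℝ) : ℂ) * Complex.I) := by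
    intro h
    rw [aeval_sum P _ n hPn]
    refine Finset.sum_congr rfl fun m _ => ?_
    rw [← Complex.exp_nat_mul]
    congr 2
    push_cast
    ring
  have him : ∀ h : ℕ, (aeval (Complex.exp (Complex.I * (fq L h : ℂ))) P).im =
      ∑ m ∈ range n, P.coeff m * Real.sin (fq L h * m) := by
    intro h
    rw [hz, Complex.im_sum]
    refine Finset.sum_congr rfl fun m _ => ?_
    rw [Complex.im_ofReal_mul, Complex.exp_ofReal_mul_I_im]
  have hre : ∀ h : ℕ, (aeval (Complex.exp (Complex.I * (fq L h : ℂ))) P).re =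
      ∑ m ∈ range n, P.coeff m * Real.cos (fq L h * m) := by
    intro h
    rw [hz, Complex.re_sum]
    refine Finset.sum_congr rfl fun m _ => ?_
    rw [Complex.re_ofReal_mul, Complex.exp_ofReal_mul_I_re]
  have hnorm : ∀ h : ℕ, ‖aeval (Complex.exp (Complex.I * (fq L h : ℂ))) (pol f (64 * L))‖ ^ k =
      ‖aeval (Complex.exp (Complex.I * (fq L h : ℂ))) P‖ := by
    intro h
    rw [hP, map_pow, norm_pow]
  rw [hnorm, hnorm, hnorm]
  have b1 := (Complex.abs_im_le_norm (aeval (Complex.exp (Complex.I * (fq L 0 : ℂ))) P))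
  have b2 := (Complex.abs_re_le_norm (aeval (Complex.exp (Complex.I * (fq L 1 : ℂ))) P))
  have b3 := (Complex.abs_re_le_norm (aeval (Complex.exp (Complex.I * (fq L 3 : ℂ))) P))
  have c1 := (abs_le.1 b1).2
  have c2 := (abs_le.1 b2).2
  have c3 := (abs_le.1 b3).2
  rw [him] at c1
  rw [hre] at c2 c3
  have key : ∑ m ∈ range n, P.coeff m * (16 * Real.sin (fq L 0 * m) + 8 * Real.cos (fq L 1 * m) +
      Real.cos (fq L 3 * m)) = 16 * ∑ m ∈ range n, P.coeff m * Real.sin (fq L 0 * m) +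
      8 * ∑ m ∈ range n, P.coeff m * Real.cos (fq L 1 * m) + ∑ m ∈ range n, P.coeff m * Real.cos (fq L 3 * m) := by
    rw [Finset.mul_sum, Finset.mul_sum, ← Finset.sum_add_distrib, ← Finset.sum_add_distrib]
    exact Finset.sum_congr rfl fun m _ => by ring
  have e1 : ∀ m : ℕ, fq L 1 * m = 2 * (fq L 0 * m) := by
    intro m
    unfold fq
    push_cast
    ring
  have e3 : ∀ m : ℕ, fq L 3 * m = 4 * (fq L 0 * m) := by
    intro m
    unfold fq
    push_cast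
    ring
  have low : 9 * ∑ m ∈ range (32 * L + 1), P.coeff m - 23 * ∑ m ∈ Ico (32 * L + 1) n, P.coeff m ≤
      ∑ m ∈ range n, P.coeff m * (16 * Real.sin (fq L 0 * m) + 8 * Real.cos (fq L 1 * m) +
      Real.cos (fq L 3 * m)) := by
    rw [← Finset.sum_range_add_sum_Ico _ hNn]
    have l1 : 9 * ∑ m ∈ range (32 * L + 1), P.coeff m ≤ ∑ m ∈ range (32 * L + 1), P.coeff m *
        (16 * Real.sin (fq L 0 * m) + 8 * Real.cos (fq L 1 * m) + Real.cos (fq L 3 * m)) := by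
      rw [Finset.mul_sum]
      refine Finset.sum_le_sum fun m hm => ?_
      rw [e1, e3, mul_comm 9]
      apply mul_le_mul_of_nonneg_left _ (hP0 m)
      apply (tau_ge _).2
      have hm' : m ≤ 32 * L := by have := mem_range.1 hm; omega
      have hmR : (m : ℝ) ≤ 32 * L := by exact_mod_cast hm'
      have hpi := Real.pi_pos
      apply Real.sin_nonneg_of_nonneg_of_le_pi
      · unfold fq
        positivity
      · unfold fq
        have h9 : Real.pi / 32 * (((0 : ℕ) : ℝ) + 1) / L * m = Real.pi * (m / (32 * L)) := by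
          push_cast
          field_simp
          ring
        rw [h9]
        have h10 : (m : ℝ) / (32 * L) ≤ 1 := by rw [div_le_one (by positivity)]; exact hmR
        nlinarith
    have l2 : -(23 * ∑ m ∈ Ico (32 * L + 1) n, P.coeff m) ≤ ∑ m ∈ Ico (32 * L + 1) n, P.coeff m *
        (16 * Real.sin (fq L 0 * m) + 8 * Real.cos (fq L 1 * m) + Real.cos (fq L 3 * m)) := by
      rw [Finset.mul_sum, ← Finset.sum_neg_distrib]
      refine Finset.sum_le_sum fun m _ => ?_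
      rw [e1, e3]
      have h1 := mul_le_mul_of_nonneg_left (tau_ge (fq L 0 * m)).1 (hP0 m)
      linarith
    linarith
  rw [key] at low
  rw [hS, hT]
  linarith

/-- from a power to a lower power -/
lemma pow_small {x F : ℝ} (k : ℕ) (hk : 2 ≤ k) (hx : 0 ≤ x) (hF : 0 < F)
    (h : x ^ (2 * k + 1) ≤ F ^ (2 * k + 1) / 60) : x ^ k ≤ 1945 / 10000 * F ^ k := by
  obtain ⟨z, hz⟩ : ∃ z : ℝ, z = x / F := ⟨_, rfl⟩
  have hxz : x = z * F := by rw [hz]; field_simp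
  have hz0 : 0 ≤ z := by rw [hz]; positivity
  have h1 : z ^ (2 * k + 1) ≤ 1 / 60 := by
    rw [hxz, mul_pow] at h
    have hFp : 0 < F ^ (2 * k + 1) := by positivity
    by_contra hcon
    rw [not_le] at hcon
    have := mul_lt_mul_of_pos_right hcon hFp
    linarith
  have hz1 : z ≤ 1 := by
    by_contra hcon
    rw [not_le] at hcon
    have := one_lt_pow₀ hcon (show 2 * k + 1 ≠ 0 by omega)
    linarith
  have h2 : (z ^ k) ^ 5 ≤ (1 / 60) ^ 2 := by
    have h3 : (z ^ k) ^ 5 ≤ (z ^ (2 * k + 1)) ^ 2 := by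
      rw [← pow_mul, ← pow_mul]
      exact pow_le_pow_of_le_one hz0 hz1 (by omega)
    exact h3.trans (pow_le_pow_left₀ (by positivity) h1 2)
  have h3 : z ^ k ≤ 1945 / 10000 := by
    by_contra hcon
    rw [not_le] at hcon
    have := pow_lt_pow_left₀ hcon (by norm_num) (show 5 ≠ 0 by norm_num)
    norm_num at this h2
    linarith
  rw [hxz, mul_pow]
  exact mul_le_mul_of_nonneg_right h3 (by positivity)

/-- the finite inequality for odd degree at least five -/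
theorem odd_fin (f : ℕ → ℕ) (hf : f 0 = 1) (k s ℓ : ℕ) (hk : 2 ≤ k) (hs : 1 ≤ s) (hℓ : 1 ≤ ℓ) (c η : ℝ)
    (hwin : ∀ j < 64 * s, c * ℓ - η ≤ ∑ i ∈ range ℓ, (rr f (2 * k + 1) (j * ℓ + 1 + i) : ℝ)) :
    c * (64 * (s * ℓ)) ≤ 59 / 60 * ((∑ i ∈ range (64 * (s * ℓ) + 1), f i : ℕ) : ℝ) ^ (2 * k + 1) +
      64 * s * η + 1 / (2 * s) * ((∑ i ∈ range (64 * (s * ℓ) + 1), f i : ℕ) : ℝ) ^ (2 * k + 1) := by
  by_contra hcon
  rw [not_le] at hcon
  have hL : 0 < s * ℓ := Nat.mul_pos hs hℓ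
  have hA := fun h hh => A_bound f (2 * k + 1) s ℓ h hs hℓ hh c η hwin
  have hR := R_lower f (2 * k + 1) s ℓ c η hwin
  have hP := pairs_big f k (32 * (s * ℓ))
  have hT := test_sum f k (s * ℓ) hL
  rw [show 2 * (32 * (s * ℓ)) = 64 * (s * ℓ) by ring] at hP
  obtain ⟨F, hF⟩ : ∃ F : ℝ, F = ((∑ i ∈ range (64 * (s * ℓ) + 1), f i : ℕ) : ℝ) := ⟨_, rfl⟩
  have hF1 : 1 ≤ F := by
    rw [hF]
    have h1 : f 0 ≤ ∑ i ∈ range (64 * (s * ℓ) + 1), f i :=
      Finset.single_le_sum (fun _ _ => Nat.zero_le _) (mem_range.2 (by omega))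
    rw [hf] at h1
    exact_mod_cast h1
  rw [← hF] at hcon hP hT
  simp only [← hF] at hA
  have hF0 : 0 < F := by linarith
  obtain ⟨Sg, hSg⟩ : ∃ Sg : ℝ, Sg = ∑ m ∈ range (32 * (s * ℓ) + 1), (rr f k m : ℝ) := ⟨_, rfl⟩
  rw [← hSg] at hP hT
  obtain ⟨G, hG⟩ : ∃ G : ℝ, G = F ^ k := ⟨_, rfl⟩
  have hG0 : 0 < G := by rw [hG]; positivity
  have hFG : F ^ (2 * k + 1) = F * G ^ 2 := by rw [hG, ← pow_mul]; ring
  have hs0 : (0 : ℝ) < s := by exact_mod_cast hs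
  have hmisc : 0 ≤ 1 / (2 * (s : ℝ)) * F ^ (2 * k + 1) := by positivity
  have hsmall : ∀ h < 4, ‖aeval (Complex.exp (Complex.I * (fq (s * ℓ) h : ℂ))) (pol f (64 * (s * ℓ)))‖ ^ k ≤
      1945 / 10000 * G := by
    intro h hh
    rw [hG]
    apply pow_small k hk (norm_nonneg _) hF0
    have := hA h hh
    linarith
  have h0 := hsmall 0 (by norm_num)
  have h1 := hsmall 1 (by norm_num)
  have h3 := hsmall 3 (by norm_num)
  rw [← hG] at hP hT
  have hb : F * (G - Sg) ^ 2 ≤ F * G ^ 2 / 60 := by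
    rw [← hFG]
    have h5 : F * (G ^ 2 - (G - Sg) ^ 2) = F ^ (2 * k + 1) - F * (G - Sg) ^ 2 := by rw [hFG]; ring
    rw [h5] at hP
    linarith
  have hb2 : (G - Sg) ^ 2 ≤ G ^ 2 / 60 := by
    have h6 : F * (G - Sg) ^ 2 ≤ F * (G ^ 2 / 60) := by rw [← mul_div_assoc]; exact hb
    exact le_of_mul_le_mul_left h6 hF0
  have hb3 : G - Sg ≤ 1291 / 10000 * G := by
    by_contra hc
    rw [not_le] at hc
    have := pow_lt_pow_left₀ hc (by positivity) (show 2 ≠ 0 by norm_num)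
    nlinarith
  linarith

end Pool.Agent.U746.ST
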